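import Pool.Agent.helper27.PC2.Stmt2
import Pool.Agent.helper27.PC.REP

/-!
# PC project, second half: the seminormal matrices with the parameter `Q`
-/

namespace Pool.Agent.helper27.PC

open Module Finset

section Qparam

variable {K : Type*} [Field K] {Q v : K}

theorem xQ_ok (hv : GenQ Q v) (m : ℕ) : XOK v (xQ Q v m) := by
  obtain ⟨hQ, h0, h2, h1⟩ := hv
  refine ⟨h0, ?_, ?_, ?_, ?_, ?_⟩
  · have := h2 2 (by norm_num)
    simpa using this
  · intro h
    apply h2 4 (by norm_num)
    have h4 : v ^ (4 : ℤ) = (v ^ 2) ^ 2 := by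
      rw [← pow_mul]; norm_cast
    rw [h4, h]; ring
  · intro l
    unfold xQ
    refine mul_ne_zero ?_ (zpow_ne_zero _ h0)
    split_ifs
    · exact hQ
    · exact neg_ne_zero.2 (inv_ne_zero hQ)
  · rintro ⟨b, p⟩ ⟨b', p'⟩ h
    unfold xQ at h
    have hz : ∀ k : ℤ, v ^ k ≠ 0 := fun k => zpow_ne_zero _ h0
    have same : ∀ s : K, s ≠ 0 → s * v ^ (2 * ((p : ℤ) + 1 - m)) = s * v ^ (2 * ((p' : ℤ) + 1 - m)) →
        p = p' := by
      intro s hs h
      have h3 := mul_left_cancel₀ hs h
      by_contra hne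
      apply h2 (2 * ((p : ℤ) + 1 - m) - 2 * ((p' : ℤ) + 1 - m)) (by omega)
      rw [zpow_sub₀ h0, h3, div_self (hz _)]
    have diff : ∀ p p' : ℕ, Q * v ^ (2 * ((p : ℤ) + 1 - m)) ≠ - Q⁻¹ * v ^ (2 * ((p' : ℤ) + 1 - m)) := by
      intro p p' h
      apply h1 (((p : ℤ) + 1 - m) - ((p' : ℤ) + 1 - m))
      have e1 : 2 * (((p : ℤ) + 1 - m) - ((p' : ℤ) + 1 - m)) =
          2 * ((p : ℤ) + 1 - m) - 2 * ((p' : ℤ) + 1 - m) := by ring
      rw [e1, zpow_sub₀ h0]
      have h5 : Q ^ 2 * v ^ (2 * ((p : ℤ) + 1 - m)) = - v ^ (2 * ((p' : ℤ) + 1 - m)) := by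
        have h6 : Q * (Q * v ^ (2 * ((p : ℤ) + 1 - m))) =
            Q * (- Q⁻¹ * v ^ (2 * ((p' : ℤ) + 1 - m))) := by rw [h]
        have h7 : Q * (- Q⁻¹ * v ^ (2 * ((p' : ℤ) + 1 - m))) = - v ^ (2 * ((p' : ℤ) + 1 - m)) := by
          rw [← mul_assoc, mul_neg, mul_inv_cancel₀ hQ]; ring
        rw [← h7, ← h6]; ring
      rw [← mul_div_assoc, h5, neg_div, div_self (hz _)]
    cases b <;> cases b' <;> simp only [Bool.false_eq_true, if_true, if_false] at h
    · rw [same _ (neg_ne_zero.2 (inv_ne_zero hQ)) h]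
    · exact absurd h.symm (diff _ _)
    · exact absurd h (diff _ _)
    · rw [same _ hQ h]
  · intro l
    unfold xQ up
    simp only
    have : (2 * (((l.2 + 1 : ℕ) : ℤ) + 1 - m)) = 2 * ((l.2 : ℤ) + 1 - m) + 2 := by push_cast; ring
    rw [this, zpow_add₀ h0]
    have h4 : v ^ (2 : ℤ) = v ^ 2 := by norm_cast
    rw [h4]; ring

theorem GenQ_v (hv : Generic v) : GenQ v v := by
  obtain ⟨h0, h1, h2⟩ := hv
  refine ⟨h0, h0, h2, fun k => ?_⟩
  have h3 : v ^ 2 * v ^ (2 * k) = v ^ (2 + 2 * k) := by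
    rw [zpow_add₀ h0]; norm_cast
  rw [h3]
  exact h1 _

theorem GenQ_one (hv : Generic v) : GenQ (1 : K) v := by
  obtain ⟨h0, h1, h2⟩ := hv
  refine ⟨one_ne_zero, h0, h2, fun k => ?_⟩
  rw [one_pow, one_mul]
  exact h1 _

/-- the parameters of the two types are generic -/
theorem GenQ_Qt (hv : Generic v) (t : Bool) : GenQ (Qt t v) v := by
  unfold Qt
  split_ifs
  · exact GenQ_v hv
  · exact GenQ_one hv

theorem opQ_v (v : K) (m i : ℕ) : opQ v v m i = op v m i := by
  cases i <;> rfl

theorem opWQ_v (v : K) (m : ℕ) (l : List ℕ) : opWQ v v m l = opW v m l := by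
  unfold opWQ opW
  have h : opQ v v m = op v m := funext fun i => opQ_v v m i
  rw [h]

theorem Stab_opQ (hv : GenQ Q v) (m n : ℕ) (S S' : St) (i : ℕ) : Stab (paths n S S') (opQ Q v m i) := by
  cases i with
  | zero => exact Stab_Xop _ _
  | succ i => exact Stab_Top (xQ_ok hv m) n S S' i

theorem Stab_opQ_all (hv : GenQ Q v) (m n : ℕ) (S : St) (i : ℕ) :
    Stab (allPaths n S) (opQ Q v m i) := Stab.all fun S' => Stab_opQ hv m n S S' i

end Qparam

theorem REPQ : REPQ_stmt := by
  intro K _ Q v hv n m hn hnm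
  have hx := xQ_ok hv m
  have hst : ∀ i, Stab (allPaths n (vac m)) (opQ Q v m i) := fun i => Stab_opQ_all hv m n (vac m) i
  have len : ∀ w ∈ allPaths n (vac m), w.length = n := by
    intro w hw
    rw [mem_allPaths] at hw
    obtain ⟨S', hw⟩ := hw
    exact length_of_mem_paths hw
  have hmat : ∀ φ : Module.End K (List Lab →₀ K), mat n (vac m) φ = matF (allPaths n (vac m)) φ :=
    fun φ => rfl
  refine ⟨⟨?_, ?_, ?_, ?_, ?_⟩, ?_⟩
  · intro _
    simp only [hmat]
    rw [← matF_mul (hst 0)]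
    have : (Q - Q⁻¹) • matF (allPaths n (vac m)) (opQ Q v m 0) + 1 =
        matF (allPaths n (vac m)) ((Q - Q⁻¹) • opQ Q v m 0 + 1) := by
      rw [← matF_one]
      ext w w'
      simp [matF, Matrix.add_apply, Matrix.smul_apply, LinearMap.add_apply, LinearMap.smul_apply]
    rw [this]
    apply matF_congr
    intro w hw
    have hl := len w hw
    rw [LinearMap.add_apply, LinearMap.smul_apply, Module.End.mul_apply, Module.End.one_apply]
    rw [mem_allPaths] at hw
    obtain ⟨S', hw⟩ := hw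
    obtain ⟨k, rfl⟩ : ∃ k, n = k + 1 := ⟨n - 1, by omega⟩
    rw [mem_paths_succ] at hw
    obtain ⟨a, z, rfl, ha, hz⟩ := hw
    have ha2 := addable_vac ha
    have e : ∀ r : K, opQ Q v m 0 (Finsupp.single (a :: z) r) = Finsupp.single (a :: z) (r * xQ Q v m a) := by
      intro r
      exact Xop_append (x := xQ Q v m) (i := 0) (p := []) rfl r
    rw [e, e, Finsupp.smul_single, ← Finsupp.single_add]
    congr 1
    have h0 := hv.1
    have : xQ Q v m a = if a.1 then Q else - Q⁻¹ := by
      unfold xQ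
      have : 2 * ((a.2 : ℤ) + 1 - m) = 0 := by rw [← ha2]; push_cast; ring
      rw [this, zpow_zero, mul_one]
    rw [this, smul_eq_mul]
    split_ifs
    · field_simp; ring
    · field_simp; ring
  · intro i hi1 hi
    simp only [hmat]
    rw [← matF_mul (hst i)]
    have : (v - v⁻¹) • matF (allPaths n (vac m)) (opQ Q v m i) + 1 =
        matF (allPaths n (vac m)) ((v - v⁻¹) • opQ Q v m i + 1) := by
      rw [← matF_one]
      ext w w'
      simp [matF, Matrix.add_apply, Matrix.smul_apply, LinearMap.add_apply, LinearMap.smul_apply]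
    rw [this]
    apply matF_congr
    intro w hw
    have hl := len w hw
    rw [LinearMap.add_apply, LinearMap.smul_apply, Module.End.mul_apply, Module.End.one_apply]
    obtain ⟨i, rfl⟩ : ∃ j, i = j + 1 := ⟨i - 1, by omega⟩
    obtain ⟨p, a, b, z, rfl, hp⟩ := exists_split₂ (i := i) (w := w) (by omega)
    rw [mem_allPaths] at hw
    obtain ⟨S', hw⟩ := hw
    exact quad_word hx hp (mem_split₂ hw).1
  · intro i hi1 hi2
    simp only [hmat]
    rw [← matF_mul (hst _), ← matF_mul (hst _), ← matF_mul (hst _), ← matF_mul (hst _)]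
    apply matF_congr
    intro w hw
    have hl := len w hw
    obtain ⟨j, rfl⟩ : ∃ j, i = j + 1 := ⟨i - 1, by omega⟩
    obtain ⟨p, a, b, c, z, rfl, hp⟩ := exists_split₃ (i := j) (w := w) (by omega)
    rw [mem_allPaths] at hw
    obtain ⟨S', hw⟩ := hw
    obtain ⟨h1, h2, h3⟩ := mem_split₃ hw
    exact braid_word hx hp h1 h2 h3
  · intro h1n
    simp only [hmat]
    rw [← matF_mul (hst _), ← matF_mul (hst _), ← matF_mul (hst _), ← matF_mul (hst _),
      ← matF_mul (hst _), ← matF_mul (hst _)]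
    apply matF_congr
    intro w hw
    have hl := len w hw
    obtain ⟨p, a, b, z, rfl, hp⟩ := exists_split₂ (i := 0) (w := w) (by omega)
    rw [List.length_eq_zero_iff] at hp
    subst hp
    rw [mem_allPaths] at hw
    obtain ⟨S', hw⟩ := hw
    have hab := (mem_split₂ hw).1
    have e0 : ∀ r : K, opQ Q v m 0 (Finsupp.single ([] ++ a :: b :: z) r) =
        r • (xQ Q v m a • Finsupp.single ([] ++ a :: b :: z) 1) := by
      intro r
      have := Xop_append (x := xQ Q v m) (i := 0) (p := []) (z := b :: z) (a := a) rfl r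
      rw [Finsupp.smul_single, Finsupp.smul_single, smul_eq_mul, smul_eq_mul, mul_one]
      exact this
    have e1 : opQ Q v m 1 (opQ Q v m 0 (opQ Q v m 1 (Finsupp.single ([] ++ a :: b :: z) 1))) =
        xQ Q v m b • Finsupp.single ([] ++ a :: b :: z) 1 := by
      have h := TXT_word hx (i := 0) (p := []) (z := z) rfl hab
      have h2 := Xop_append (x := xQ Q v m) (i := 1) (p := [a]) (z := z) (a := b) rfl 1
      rw [Finsupp.smul_single, smul_eq_mul, mul_one]
      rw [one_mul] at h2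
      exact h.trans h2
    simp only [Module.End.mul_apply]
    rw [e0, one_smul, e1, map_smul, map_smul, map_smul, map_smul, e1, e0, one_smul, smul_comm]
  · intro i j hij hj
    simp only [hmat]
    rw [← matF_mul (hst _), ← matF_mul (hst _)]
    apply matF_congr
    intro w hw
    have hl := len w hw
    obtain ⟨j, rfl⟩ : ∃ k, j = k + 1 := ⟨j - 1, by omega⟩
    rw [Module.End.mul_apply, Module.End.mul_apply]
    cases i with
    | zero => exact Xop_comm_word (by omega) (by omega)
    | succ i => exact comm_word (by omega) (by omega)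
  · intro l hl
    exact (matF_prod (opQ Q v m) l fun i _ => hst i).2

end Pool.Agent.helper27.PC
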