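import Pool.Agent.helper27.PC2.Defs2

/-!
# PC project, second half: statements of the modules
-/

namespace Pool.Agent.helper27.PC

open Module Polynomial

/-! ## Groups -/

/-- the simple reflections generate `W(D_n)` -/
def GEND_stmt : Prop := ∀ (n : ℕ) (w : WD n), ∃ l : List (Fin n), (l.map (genD n)).prod = w

/-- rewriting words -/
def DW_stmt : Prop := ∀ (n : ℕ) (l : List ℕ), (∀ i ∈ l, i < n) → ∀ p : Bool,
  ((((dword p l).map (gD n)).prod : WD n) : W n) = (if p then g n 0 else 1) * (l.map (g n)).prod *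
    (if p ^^ decide (Odd (l.count 0)) then g n 0 else 1)

/-- the order of `W(D_n)` -/
def CARDD_stmt : Prop := ∀ n : ℕ, 1 ≤ n → 2 * Nat.card (WD n) = 2 ^ n * n.factorial

/-- `T_w` along a reduced word -/
def TWG_stmt : Prop := ∀ (ι G : Type) [Group G] (s : ι → G),
  (∀ w : G, ∃ l : List ι, (l.map s).prod = w) → ∀ (H : Type) [Ring H] [Algebra A H] (T : Basis G A H),
  GHecke s T → T 1 = 1 ∧ ∀ l : List ι, glen s (l.map s).prod = l.length →
    T (l.map s).prod = (l.map fun i => T (s i)).prod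

/-- relations in the Hecke algebra of type `D_n` -/
def HRELD_stmt : Prop := ∀ (n : ℕ) (H : Type) [Ring H] [Algebra A H] (T : Basis (WD n) A H), 2 ≤ n →
  GHecke (genD n) T → RelD (v - vi) n fun i => T (gD n i)

/-- standard elements of `W(B_n)` have minimal length -/
def LEN2B_stmt : Prop := ∀ (n : ℕ) (β α : List ℕ), Typ n β α →
  len (std2 n β α) = (word2 β α).length ∧ IsMinLen (std2 n β α)

/-- standard elements of `W(D_n)` have minimal length -/
def LEN2D_stmt : Prop := ∀ (n : ℕ) (β α : List ℕ), 2 ≤ n → Typ n β α → Even β.length →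
  ((stdD n β α : WD n) : W n) = std2 n β α ∧
  glen (genD n) (stdD n β α) = lenT false (word2 β α) ∧ GMin (genD n) (stdD n β α)

/-- the conjugacy classes of `W(B_n)` -/
def CLS_stmt : Prop := ∀ (n : ℕ) (w : W n), ∃ β α : List ℕ, Typ n β α ∧ IsConj w (std2 n β α)

/-- products of negative cycles are elliptic -/
def ELL_stmt : Prop := ∀ (n : ℕ) (β : List ℕ) (w : W n), Typ n β [] → IsConj w (std2 n β []) →
  ∀ f : Fin n × Bool → ℝ, (∀ x, f (x.1, !x.2) = - f x) →
    (∀ x, f ((w : Equiv.Perm (Fin n × Bool)) x) = f x) → f = 0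

/-- classes of `W(D_n)`, up to the automorphism `w ↦ s_0 w s_0` -/
def SIG_stmt : Prop := ∀ (n : ℕ) (w : WD n) (β α : List ℕ), 2 ≤ n → Typ n β α →
  IsConj (w : W n) (std2 n β α) → Even β.length ∧
  ∀ (H : Type) [Ring H] [Algebra A H] (T : Basis (WD n) A H), GHecke (genD n) T →
    ∃ T' : Basis (WD n) A H, GHecke (genD n) T' ∧ ∃ w' : WD n, IsConj w w' ∧ GMin (genD n) w' ∧
      GN (genD n) T w' = GN (genD n) T' (stdD n β α)

/-! ## Algebras -/

/-- dimension bound -/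
def DIMQ_stmt : Prop := ∀ (K R : Type) [Field K] [Ring R] [Algebra K R] (c₀ c : K) (n : ℕ) (τ : ℕ → R),
  RelQ c₀ c n τ → Module.Finite K (Algebra.adjoin K (τ '' {i | i < n})) ∧
    Module.finrank K (Algebra.adjoin K (τ '' {i | i < n})) ≤ 2 ^ n * n.factorial

/-- the seminormal matrices -/
def REPQ_stmt : Prop := ∀ (K : Type) [Field K] (Q v : K), GenQ Q v → ∀ n m : ℕ, 1 ≤ n → n ≤ m →
  RelQ (Q - Q⁻¹) (v - v⁻¹) n (fun i => mat n (vac m) (opQ Q v m i)) ∧
  ∀ l : List ℕ, (∀ i ∈ l, i < n) →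
    mat n (vac m) (opWQ Q v m l) = (l.map fun i => mat n (vac m) (opQ Q v m i)).prod

/-- every algebra with generators satisfying the relations is a quotient of the algebra of block matrices -/
def HOMQ_stmt : Prop := ∀ (K : Type) [Field K] (Q v : K), GenQ Q v → ∀ n m : ℕ, 1 ≤ n → n ≤ m →
  ∀ (R : Type) [Ring R] [Algebra K R] (τ : ℕ → R), RelQ (Q - Q⁻¹) (v - v⁻¹) n τ →
  ∃ φ : Matrix (allPaths n (vac m)) (allPaths n (vac m)) K →ₗ[K] R, φ 1 = 1 ∧
    (∀ M M', IsBlk n (vac m) M → IsBlk n (vac m) M' → φ (M * M') = φ M * φ M') ∧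
    ∀ i < n, φ (mat n (vac m) (opQ Q v m i)) = τ i

/-- trace of a product of Coxeter elements of symmetric groups: sign pattern of the two lowest
coefficients -/
def HK_stmt : Prop := ∀ (K : Type) [Field K] [CharZero K] (v : K), Generic v →
  ∀ (V : Type) [AddCommGroup V] [Module K V] [Module.Finite K V] (n : ℕ) (τ : ℕ → Module.End K V),
  RelA (v - v⁻¹) n τ → ∀ α : List ℕ, (∀ a ∈ α, 1 ≤ a) → α.sum ≤ n →
  ∃ p : ℤ[X],
    v ^ (α.sum - α.length) * LinearMap.trace K V ((posWord 0 α).map τ).prod =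
      p.eval₂ (Int.castRingHom K) (v ^ 2) ∧
    v ^ (α.sum - α.length) * LinearMap.trace K V ((posWord 0 α).reverse.map τ).prod =
      p.eval₂ (Int.castRingHom K) (v ^ 2) ∧
    0 ≤ (-1) ^ (α.sum - α.length) * p.coeff 0 ∧ (-1) ^ (α.sum - α.length) * p.coeff 1 ≤ 0

/-- trace formula in type `D_n` -/
def TRD_stmt : Prop := ∀ (n : ℕ) (H : Type) [Ring H] [Algebra A H] (T : Basis (WD n) A H), 2 ≤ n →
  GHecke (genD n) T → ∀ (K : Type) [Field K] [Algebra A K], Function.Injective (algebraMap A K) →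
  ∀ l₁ l₂ : List ℕ, (∀ i ∈ l₁, i < n) → (∀ i ∈ l₂, i < n) → Even (l₁.count 0) → Even (l₂.count 0) →
  2 * algebraMap A K (LinearMap.trace A H
      (LinearMap.mulLeft A (((dword false l₁).map fun i => T (gD n i)).prod) ∘ₗ
        LinearMap.mulRight A (((dword false l₂).map fun i => T (gD n i)).prod))) =
    ∑ S ∈ ends n (vac n), trP n (vac n) S (opWQ 1 (algebraMap A K v) n l₁) *
      trP n (vac n) S (opWQ 1 (algebraMap A K v) n l₂) +
    ∑ S ∈ (ends n (vac n)).filter (fun S => flip S = S),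
      trJ n (vac n) S (opWQ 1 (algebraMap A K v) n l₁) *
      trJ n (vac n) S (opWQ 1 (algebraMap A K v) n l₂)

/-- `N` for the standard elements of `W(B_n)` -/
def NFB2_stmt : Prop := ∀ (n : ℕ) (H : Type) [Ring H] [Algebra A H] (T : Basis (W n) A H), 1 ≤ n →
  IsHecke n T → ∀ β α : List ℕ, Typ n β α → ∀ (K : Type) [Field K] [Algebra A K],
  Function.Injective (algebraMap A K) → algebraMap A K (N T (std2 n β α)) =
    ∑ S ∈ ends n (vac n),
      (algebraMap A K v ^ lenT true (word2 β α) *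
        trP n (vac n) S (opWQ (Qt true (algebraMap A K v)) (algebraMap A K v) n (word2 β α))) *
      (algebraMap A K v ^ lenT true (word2 β α) *
        trP n (vac n) S (opWQ (Qt true (algebraMap A K v)) (algebraMap A K v) n (word2 β α).reverse))

/-- `N` for the standard elements of `W(D_n)` -/
def NFD2_stmt : Prop := ∀ (n : ℕ) (H : Type) [Ring H] [Algebra A H] (T : Basis (WD n) A H), 2 ≤ n →
  GHecke (genD n) T → ∀ β α : List ℕ, Typ n β α → Even β.length →
  ∀ (K : Type) [Field K] [Algebra A K], Function.Injective (algebraMap A K) →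
  2 * algebraMap A K (GN (genD n) T (stdD n β α)) =
    ∑ S ∈ ends n (vac n),
      (algebraMap A K v ^ lenT false (word2 β α) *
        trP n (vac n) S (opWQ (Qt false (algebraMap A K v)) (algebraMap A K v) n (word2 β α))) *
      (algebraMap A K v ^ lenT false (word2 β α) *
        trP n (vac n) S (opWQ (Qt false (algebraMap A K v)) (algebraMap A K v) n (word2 β α).reverse)) +
    ∑ S ∈ (ends n (vac n)).filter (fun S => flip S = S),
      (algebraMap A K v ^ lenT false (word2 β α) *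
        trJ n (vac n) S (opWQ (Qt false (algebraMap A K v)) (algebraMap A K v) n (word2 β α))) *
      (algebraMap A K v ^ lenT false (word2 β α) *
        trJ n (vac n) S (opWQ (Qt false (algebraMap A K v)) (algebraMap A K v) n (word2 β α).reverse))

/-! ## Traces on words -/

/-- the twisted traces vanish if there is a negative cycle -/
def DZ_stmt : Prop := ∀ (K : Type) [Field K] (v : K), Generic v → ∀ (n : ℕ) (β α : List ℕ),
  Typ n β α → β ≠ [] → ∀ S : St, flip S = S →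
  (2 : K) * trJ n (vac n) S (opWQ 1 v n (word2 β α)) = 0 ∧
  (2 : K) * trJ n (vac n) S (opWQ 1 v n (word2 β α).reverse) = 0

/-- the ribbon rule for one block -/
def RRQ_stmt : Prop := ∀ (K : Type) [Field K] (Q v : K), GenQ Q v → ∀ (m a : ℕ) (S S' : St), 1 ≤ a →
  trP a S S' (opWQ Q v m (List.range a)) =
    v ^ (a - 1) * Rib (xQ Q v m) a (Finsupp.single S 1) S' ∧
  trP a S S' (opWQ Q v m (List.range a).reverse) =
    v ^ (a - 1) * Rib (xQ Q v m) a (Finsupp.single S 1) S'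

/-- the character values of the products of negative cycles -/
def CHQ_stmt : Prop := ∀ (t : Bool) (K : Type) [Field K] (v : K), Generic v → ∀ (n : ℕ) (l : List ℕ),
  (∀ a ∈ l, 1 ≤ a) → l.sum ≤ n → ∀ S' : St,
  v ^ (lenT t (stdWord 0 l)) * trP l.sum (vac n) S' (opWQ (Qt t v) v n (stdWord 0 l)) =
    (vecT t n l S').eval₂ (Int.castRingHom K) (v ^ 2) ∧
  v ^ (lenT t (stdWord 0 l)) * trP l.sum (vac n) S' (opWQ (Qt t v) v n (stdWord 0 l).reverse) =
    (vecT t n l S').eval₂ (Int.castRingHom K) (v ^ 2)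

/-- the character values of the standard elements -/
def CH2_stmt : Prop := ∀ (t : Bool) (K : Type) [Field K] (v : K), Generic v →
  ∀ (n : ℕ) (β α : List ℕ), Typ n β α → ∀ S : St,
  v ^ (lenT t (word2 β α)) * trP n (vac n) S (opWQ (Qt t v) v n (word2 β α)) =
    ∑ M ∈ ends β.sum (vac n), (vecT t n β M).eval₂ (Int.castRingHom K) (v ^ 2) *
      (v ^ (α.sum - α.length) * trP α.sum M S (opWQ (Qt t v) v n (posWord 0 α))) ∧
  v ^ (lenT t (word2 β α)) * trP n (vac n) S (opWQ (Qt t v) v n (word2 β α).reverse) =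
    ∑ M ∈ ends β.sum (vac n), (vecT t n β M).eval₂ (Int.castRingHom K) (v ^ 2) *
      (v ^ (α.sum - α.length) * trP α.sum M S (opWQ (Qt t v) v n (posWord 0 α).reverse))

/-- the traces of the positive part have the sign pattern of `HK_stmt` -/
def HKP_stmt : Prop := ∀ (t : Bool) (K : Type) [Field K] [CharZero K] (v : K), Generic v →
  ∀ (n k : ℕ) (α : List ℕ) (M S : St), (∀ a ∈ α, 1 ≤ a) → k + α.sum ≤ n → M ∈ ends k (vac n) →
  ∃ p : ℤ[X],
    v ^ (α.sum - α.length) * trP α.sum M S (opWQ (Qt t v) v n (posWord 0 α)) =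
      p.eval₂ (Int.castRingHom K) (v ^ 2) ∧
    v ^ (α.sum - α.length) * trP α.sum M S (opWQ (Qt t v) v n (posWord 0 α).reverse) =
      p.eval₂ (Int.castRingHom K) (v ^ 2) ∧
    0 ≤ (-1) ^ (α.sum - α.length) * p.coeff 0 ∧ (-1) ^ (α.sum - α.length) * p.coeff 1 ≤ 0

/-- a special value -/
def SP_stmt : Prop := ∀ (t : Bool) (K : Type) [Field K] (v : K), Generic v → ∀ (n m : ℕ) (α : List ℕ),
  (∀ a ∈ α, 1 ≤ a) → 1 ≤ α.sum → m + α.sum ≤ n →
  v ^ (α.sum - α.length) * trP α.sum (col n 0 m) (col n 1 (m + α.sum - 1))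
      (opWQ (Qt t v) v n (posWord 0 α)) =
    (-1) ^ (α.sum - α.length) *
      ((α.count 1 : K) + ((α.length - α.count 1 : ℕ) : K) * (1 - v ^ 2)) ∧
  v ^ (α.sum - α.length) * trP α.sum (col n 0 m) (col n 1 (m + α.sum - 1))
      (opWQ (Qt t v) v n (posWord 0 α).reverse) =
    (-1) ^ (α.sum - α.length) *
      ((α.count 1 : K) + ((α.length - α.count 1 : ℕ) : K) * (1 - v ^ 2))

/-- the two lowest coefficients of the negative part -/
def VQ_stmt : Prop := ∀ (t : Bool) (n : ℕ) (β : List ℕ), (∀ a ∈ β, 1 ≤ a) → β.Pairwise (· ≤ ·) →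
  β.sum ≤ n → (t = true ∨ Even β.length) → ∃ ε : ℤ, (ε = 1 ∨ ε = -1) ∧
  (∀ S, 0 ≤ ε * (vecT t n β S).coeff 0 ∧ ε * (vecT t n β S).coeff 1 ≤ 0) ∧
  ε * (vecT t n β (col n 0 β.sum)).coeff 0 = 1

/-- some positive cycle of length at least `2`: the coefficient of `q` -/
def AA_stmt : Prop := ∀ (t : Bool) (K : Type) [Field K] [CharZero K] (v : K), Generic v →
  Function.Injective (fun p : ℤ[X] => p.eval₂ (Int.castRingHom K) (v ^ 2)) →
  ∀ (n : ℕ) (β α : List ℕ), Typ n β α → (t = true ∨ Even β.length) → (∃ a ∈ α, 2 ≤ a) →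
  ∃ f : St → ℤ[X],
    (∀ S, v ^ (lenT t (word2 β α)) * trP n (vac n) S (opWQ (Qt t v) v n (word2 β α)) =
        (f S).eval₂ (Int.castRingHom K) (v ^ 2) ∧
      v ^ (lenT t (word2 β α)) * trP n (vac n) S (opWQ (Qt t v) v n (word2 β α).reverse) =
        (f S).eval₂ (Int.castRingHom K) (v ^ 2)) ∧
    (∑ S ∈ ends n (vac n), f S ^ 2).coeff 1 < 0

/-- the same in type `D` without negative cycles -/
def AAD_stmt : Prop := ∀ (K : Type) [Field K] [CharZero K] (v : K), Generic v →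
  Function.Injective (fun p : ℤ[X] => p.eval₂ (Int.castRingHom K) (v ^ 2)) →
  ∀ (n : ℕ) (α : List ℕ), 3 ≤ n → Typ n [] α → (∃ a ∈ α, 2 ≤ a) →
  ∃ f h : St → ℤ[X],
    (∀ S, v ^ (lenT false (word2 [] α)) * trP n (vac n) S (opWQ 1 v n (word2 [] α)) =
        (f S).eval₂ (Int.castRingHom K) (v ^ 2) ∧
      v ^ (lenT false (word2 [] α)) * trP n (vac n) S (opWQ 1 v n (word2 [] α).reverse) =
        (f S).eval₂ (Int.castRingHom K) (v ^ 2)) ∧
    (∀ S, flip S = S →
      v ^ (lenT false (word2 [] α)) * trJ n (vac n) S (opWQ 1 v n (word2 [] α)) =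
        (h S).eval₂ (Int.castRingHom K) (v ^ 2) ∧
      v ^ (lenT false (word2 [] α)) * trJ n (vac n) S (opWQ 1 v n (word2 [] α).reverse) =
        (h S).eval₂ (Int.castRingHom K) (v ^ 2)) ∧
    (∑ S ∈ ends n (vac n), f S ^ 2 +
      ∑ S ∈ (ends n (vac n)).filter (fun S => flip S = S), h S ^ 2).coeff 1 < 0

/-- all positive cycles of length `1` -/
def NU_stmt : Prop := ∀ (t : Bool) (K : Type) [Field K] (v : K), Generic v →
  ∀ (n : ℕ) (β : List ℕ) (j : ℕ), Typ n β (List.replicate j 1) →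
  (∀ S, v ^ (lenT t (word2 β (List.replicate j 1))) *
      trP n (vac n) S (opWQ (Qt t v) v n (word2 β (List.replicate j 1))) =
    ((((Rib (fun _ => (1 : ℤ[X])) 1) ^ j) (vecT t n β)) S).eval₂ (Int.castRingHom K) (v ^ 2) ∧
   v ^ (lenT t (word2 β (List.replicate j 1))) *
      trP n (vac n) S (opWQ (Qt t v) v n (word2 β (List.replicate j 1)).reverse) =
    ((((Rib (fun _ => (1 : ℤ[X])) 1) ^ j) (vecT t n β)) S).eval₂ (Int.castRingHom K) (v ^ 2)) ∧
  PU t n β j = ∑ S ∈ ends n (vac n), ((((Rib (fun _ => (1 : ℤ[X])) 1) ^ j) (vecT t n β)) S) ^ 2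

/-! ## Vectors -/

section vec

/-- adjointness -/
def LA_stmt : Prop := ∀ (R : Type) [CommRing R] (w : Lab → R) (a : ℕ) (u u' : St →₀ R), 1 ≤ a →
  dot (Rib w a u) u' = dot u (Low w a u')

/-- numbers of boxes -/
def LG_stmt : Prop := ∀ (R : Type) [CommRing R] (w : Lab → R) (n k a : ℕ) (u : St →₀ R), 1 ≤ a →
  GV n k u → GV n (k + a) (Rib w a u) ∧ (a ≤ k → GV n (k - a) (Low w a u)) ∧
    (k < a → Low w a u = 0)

/-- commutators of `Low` and `Rib` -/
def LB_stmt : Prop := ∀ (R : Type) [CommRing R] (x y : Lab → R) (n k a b : ℕ) (u : St →₀ R), 1 ≤ a →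
  1 ≤ b → GV n k u → k + b ≤ n →
  (a < b → Low x a (Rib y b u) - Rib y b (Low x a u) =
    Rib (fun l => x (up (b - a) l) * y l - x (dn a l) * y (dn a l)) (b - a) u) ∧
  (a = b → Low x a (Rib y b u) - Rib y b (Low x a u) =
    Dg (fun l => x l * y l - if b ≤ l.2 then x (dn b l) * y (dn b l) else 0) u) ∧
  (b < a → Low x a (Rib y b u) - Rib y b (Low x a u) =
    Low (fun l => x l * y (up (a - b) l) - x (dn b l) * y (dn b l)) (a - b) u)

/-- norms of powers -/
def DL_stmt : Prop := ∀ (R : Type) [CommRing R] (x : Lab → R), (∀ l, x l * x l = 1) →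
  ∀ (n k a j : ℕ) (u : St →₀ R), 1 ≤ a → GV n k u → k + j * a ≤ n →
  nrm (((Rib x a) ^ j) u) = ∑ i ∈ Finset.range (j + 1),
    (((j.choose i) ^ 2 * (j - i).factorial * (2 * a) ^ (j - i) : ℕ) : R) * nrm (((Low x a) ^ i) u)

/-- the vectors at `q = 1` are killed by `Low 1 1` -/
def YD_stmt : Prop := ∀ (n : ℕ) (l : List ℕ), (∀ a ∈ l, 1 ≤ a) → l.sum ≤ n →
  Low (fun _ => (1 : ℤ)) 1 (app yt l (Finsupp.single (vac n) 1)) = 0

/-- comparison of the norms at `q = 1` and `q = -1` -/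
def LT_stmt : Prop := ∀ (t : Bool) (n : ℕ) (l : List ℕ), (∀ a ∈ l, 1 ≤ a) → l.Pairwise (· ≤ ·) →
  l.sum ≤ n →
  nrm (app yt l (Finsupp.single (vac n) 1)) ≤ nrm (app (xt t) l (Finsupp.single (vac n) 1)) ∧
  (Mixed t l →
    nrm (app yt l (Finsupp.single (vac n) 1)) < nrm (app (xt t) l (Finsupp.single (vac n) 1)))

/-- nonvanishing -/
def NZ_stmt : Prop := ∀ (t : Bool) (n b a k : ℕ), 1 ≤ b → b < a → Odd (a - b) →
  (if t then a ≤ k * b else a < k * b) → k * b ≤ n →
  Low (xt t) a (app (xt t) (List.replicate k b) (Finsupp.single (vac n) 1)) ≠ 0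

/-- one column coordinates of `Rib` -/
def COL_stmt : Prop := ∀ (R : Type) [CommRing R] (w : Lab → R) (n b i k : ℕ) (u : St →₀ R), 1 ≤ b →
  i ≤ n → k ≤ n →
  Rib w b u (col n i k) =
    (if b ≤ i then (-1) ^ (b - 1) * w (true, n - i) * u (col n (i - b) k) else 0) +
    (if b ≤ k then (-1) ^ (b - 1) * w (false, n - k) * u (col n i (k - b)) else 0)

/-- `Low 1 1` does not kill the vectors at `q = -1` -/
def CO_stmt : Prop := ∀ (t : Bool) (n : ℕ) (β : List ℕ), (∀ a ∈ β, 1 ≤ a) → β.Pairwise (· ≤ ·) →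
  β.sum ≤ n → β ≠ [] → (t = true ∨ Even β.length) → ¬ (t = true ∧ β = [1, 1]) →
  ¬ (t = true ∧ 2 ≤ β.count 1 ∧ 2 ∈ β) →
  Low (fun _ => (1 : ℤ)) 1 (app (xt t) β (Finsupp.single (vac n) 1)) ≠ 0

/-- values of `PU` at `1` and `-1` -/
def EV_stmt : Prop := ∀ (t : Bool) (n : ℕ) (β : List ℕ) (j : ℕ), (∀ a ∈ β, 1 ≤ a) → β.sum ≤ n →
  (PU t n β j).eval (-1) =
    nrm (((Rib (fun _ => (1 : ℤ)) 1) ^ j) (app (xt t) β (Finsupp.single (vac n) 1))) ∧
  (PU t n β j).eval 1 =
    nrm (((Rib (fun _ => (1 : ℤ)) 1) ^ j) (app yt β (Finsupp.single (vac n) 1)))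

/-- the exceptional type `(1, 1)` -/
def ONE_stmt : Prop := ∀ j : ℕ, 1 ≤ j → (PU true (2 + j) [1, 1] j).coeff 2 < 0

/-- positivity for super-decreasing types, type `D` -/
def SDD_stmt : Prop := ∀ (n : ℕ) (l : List ℕ), Part n l → SuperDecreasing l → Even l.length →
  ∀ k, 0 ≤ (nrm (vecT false n l)).coeff k

end vec

end Pool.Agent.helper27.PC
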