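import Pool.Agent.helper27.PC.FinB

/-!
# PC project, second half (`W(B_n)` non-elliptic classes, `W(D_n)`): definitions

`t = true` stands for type `B`, `t = false` for type `D`.
-/

namespace Pool.Agent.helper27.PC

open Module Polynomial

/-! ## Groups with generators, Hecke algebras -/

section gens

variable {ι G : Type} [Group G]

/-- length with respect to the generators `s` -/
noncomputable def glen (s : ι → G) (w : G) : ℕ :=
  sInf {k | ∃ l : List ι, l.length = k ∧ (l.map s).prod = w}

/-- `w` has minimal length in its conjugacy class -/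
def GMin (s : ι → G) (w : G) : Prop := ∀ g : G, glen s w ≤ glen s (g * w * g⁻¹)

/-- `H` with its basis `T` is the Iwahori-Hecke algebra of the group `G` with simple reflections `s` -/
structure GHecke (s : ι → G) {H : Type} [Ring H] [Algebra A H] (T : Basis G A H) : Prop where
  quad : ∀ i, (T (s i) + algebraMap A H vi) * (T (s i) - algebraMap A H v) = 0
  mul : ∀ w w' : G, glen s (w * w') = glen s w + glen s w' → T w * T w' = T (w * w')

/-- `N^w` -/
noncomputable def GN (s : ι → G) {H : Type} [Ring H] [Algebra A H] (T : Basis G A H) (w : G) : A :=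
  LinearMap.trace A H
    (LinearMap.mulLeft A (v ^ (2 * glen s w) • T w) ∘ₗ LinearMap.mulRight A (T w⁻¹))

end gens

/-! ## `W(D_n)` -/

/-- `W(D_n)`: the elements of `W(B_n)` that are even permutations of the `2n` signed indices, i.e. those
with an even number of sign changes -/
def WD (n : ℕ) : Subgroup (W n) := (Equiv.Perm.sign.comp (W n).subtype).ker

theorem mem_WD {n : ℕ} {w : W n} : w ∈ WD n ↔ Equiv.Perm.sign (w : Equiv.Perm (Fin n × Bool)) = 1 := by
  simp [WD, MonoidHom.mem_ker]

theorem sign_gen_succ {n : ℕ} (i : Fin n) (hi : i.val ≠ 0) :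
    Equiv.Perm.sign (gen n i : Equiv.Perm (Fin n × Bool)) = 1 := by
  show Equiv.Perm.sign (genPerm n i) = 1
  unfold genPerm
  rw [if_neg hi]
  generalize (⟨i.val - 1, lt_of_le_of_lt (Nat.sub_le _ _) i.isLt⟩ : Fin n) = j
  by_cases hji : j = i
  · subst hji
    have h0 : ((Equiv.swap j j).prodCongr (Equiv.refl Bool) : Equiv.Perm (Fin n × Bool)) = 1 := by
      ext1 ⟨x, b⟩
      simp [Equiv.prodCongr_apply, Prod.map]
    rw [h0, map_one]
  · have h1 : ((Equiv.swap j i).prodCongr (Equiv.refl Bool) : Equiv.Perm (Fin n × Bool)) =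
        Equiv.swap (j, true) (i, true) * Equiv.swap (j, false) (i, false) := by
      have hij : i ≠ j := fun h => hji h.symm
      ext1 ⟨x, b⟩
      rw [Equiv.Perm.mul_apply, Equiv.prodCongr_apply]
      simp only [Prod.map, Equiv.refl_apply]
      by_cases hx : x = j
      · subst hx
        cases b
        · rw [Equiv.swap_apply_left, Equiv.swap_apply_left,
            Equiv.swap_apply_of_ne_of_ne] <;> simp [Prod.ext_iff]
        · rw [Equiv.swap_apply_left, Equiv.swap_apply_of_ne_of_ne (a := (x, false)),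
            Equiv.swap_apply_left] <;> simp [Prod.ext_iff]
      · by_cases hx' : x = i
        · subst hx'
          cases b
          · rw [Equiv.swap_apply_right, Equiv.swap_apply_right,
              Equiv.swap_apply_of_ne_of_ne] <;> simp [Prod.ext_iff]
          · rw [Equiv.swap_apply_right, Equiv.swap_apply_of_ne_of_ne (a := (j, false)),
              Equiv.swap_apply_right] <;> simp [Prod.ext_iff]
        · rw [Equiv.swap_apply_of_ne_of_ne hx hx', Equiv.swap_apply_of_ne_of_ne (a := (j, false)),
            Equiv.swap_apply_of_ne_of_ne] <;> simp [Prod.ext_iff, hx, hx']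
    rw [h1, Equiv.Perm.sign_mul, Equiv.Perm.sign_swap, Equiv.Perm.sign_swap] <;>
      simp [Prod.ext_iff, hji]

theorem sign_g_succ (n i : ℕ) :
    Equiv.Perm.sign (g n (i + 1) : Equiv.Perm (Fin n × Bool)) = 1 := by
  unfold g
  split_ifs with h
  · exact sign_gen_succ _ (by simp)
  · simp

theorem genD_aux (n : ℕ) (i : Fin n) :
    (if i.val = 0 then g n 0 * g n 1 * g n 0 else gen n i) ∈ WD n := by
  rw [mem_WD]
  split_ifs with h
  · rw [Subgroup.coe_mul, Subgroup.coe_mul, Equiv.Perm.sign_mul, Equiv.Perm.sign_mul, sign_g_succ,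
      mul_one, ← Equiv.Perm.sign_mul]
    have : ((g n 0 : W n) : Equiv.Perm (Fin n × Bool)) * (g n 0 : Equiv.Perm (Fin n × Bool)) = 1 := by
      have h2 := NF_g_inv (n := n) 0
      have h3 : g n 0 * g n 0 = 1 := by
        calc g n 0 * g n 0 = (g n 0)⁻¹ * g n 0 := by rw [h2]
          _ = 1 := inv_mul_cancel _
      rw [← Subgroup.coe_mul, h3, Subgroup.coe_one]
    rw [this, map_one]
  · exact sign_gen_succ i h

/-- the simple reflections of `W(D_n)`: number `0` is `s_0 s_1 s_0` (it maps `e_1` to `-e_2` and `e_2` to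
`-e_1`), the others are the adjacent transpositions -/
def genD (n : ℕ) (i : Fin n) : WD n :=
  ⟨if i.val = 0 then g n 0 * g n 1 * g n 0 else gen n i, genD_aux n i⟩

/-- generator with a natural number as index -/
def gD (n i : ℕ) : WD n := if h : i < n then genD n ⟨i, h⟩ else 1

/-- a word in the generators of `W(B_n)` rewritten in the generators of `W(D_n)`; the flag `p` says that an odd
number of letters `0` has been read -/
def dword : Bool → List ℕ → List ℕ
  | _, [] => []
  | p, 0 :: l => dword (!p) l
  | p, 1 :: l => (if p then 0 else 1) :: dword p l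
  | p, (i + 2) :: l => (i + 2) :: dword p l

/-! ## Standard elements of signed cycle type `(β; α)` -/

/-- word for the product of positive cycles of lengths `α` on consecutive coordinates from `k` on -/
def posWord : ℕ → List ℕ → List ℕ
  | _, [] => []
  | k, a :: l => List.range' (k + 1) (a - 1) ++ posWord (k + a) l

/-- word of the standard element: negative cycles of lengths `β`, then positive cycles of lengths `α` -/
def word2 (β α : List ℕ) : List ℕ := stdWord 0 β ++ posWord β.sum α

/-- the standard element of `W(B_n)` -/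
def std2 (n : ℕ) (β α : List ℕ) : W n := ((word2 β α).map (g n)).prod

/-- the standard element of `W(D_n)` (for `β` of even length) -/
def stdD (n : ℕ) (β α : List ℕ) : WD n := ((dword false (word2 β α)).map (gD n)).prod

/-- `(β; α)` is a pair of lists of positive integers of total sum `n`, `β` increasing -/
def Typ (n : ℕ) (β α : List ℕ) : Prop :=
  (∀ a ∈ β, 1 ≤ a) ∧ β.Pairwise (· ≤ ·) ∧ (∀ a ∈ α, 1 ≤ a) ∧ β.sum + α.sum = n

/-! ## Relations -/

/-- relations of type `B_n` with the parameter `c₀` for the first generator -/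
structure RelQ {K R : Type*} [CommRing K] [Ring R] [Algebra K R] (c₀ c : K) (n : ℕ) (τ : ℕ → R) :
    Prop where
  quad0 : 0 < n → τ 0 * τ 0 = c₀ • τ 0 + 1
  quad : ∀ i, 1 ≤ i → i < n → τ i * τ i = c • τ i + 1
  braid : ∀ i, 1 ≤ i → i + 1 < n → τ i * τ (i + 1) * τ i = τ (i + 1) * τ i * τ (i + 1)
  braid0 : 1 < n → τ 0 * τ 1 * τ 0 * τ 1 = τ 1 * τ 0 * τ 1 * τ 0
  comm : ∀ i j, i + 1 < j → j < n → τ i * τ j = τ j * τ i

/-- relations of type `D_n` -/
structure RelD {K R : Type*} [CommRing K] [Ring R] [Algebra K R] (c : K) (n : ℕ) (τ : ℕ → R) : Prop where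
  quad : ∀ i, i < n → τ i * τ i = c • τ i + 1
  braid : ∀ i, 1 ≤ i → i + 1 < n → τ i * τ (i + 1) * τ i = τ (i + 1) * τ i * τ (i + 1)
  braid0 : 2 < n → τ 0 * τ 2 * τ 0 = τ 2 * τ 0 * τ 2
  comm01 : 1 < n → τ 0 * τ 1 = τ 1 * τ 0
  comm0 : ∀ j, 3 ≤ j → j < n → τ 0 * τ j = τ j * τ 0
  comm : ∀ i j, 1 ≤ i → i + 1 < j → j < n → τ i * τ j = τ j * τ i

/-- relations of type `A`: only the generators `1 ≤ i < n` -/
structure RelA {K R : Type*} [CommRing K] [Ring R] [Algebra K R] (c : K) (n : ℕ) (τ : ℕ → R) : Prop where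
  quad : ∀ i, 1 ≤ i → i < n → τ i * τ i = c • τ i + 1
  braid : ∀ i, 1 ≤ i → i + 1 < n → τ i * τ (i + 1) * τ i = τ (i + 1) * τ i * τ (i + 1)
  comm : ∀ i j, 1 ≤ i → i + 1 < j → j < n → τ i * τ j = τ j * τ i

/-! ## Words with the parameter `Q` (`Q = v` for type `B`, `Q = 1` for type `D`) -/

section ops

variable {K : Type*} [Field K]

/-- the value of the Jucys-Murphy element on a box -/
noncomputable def xQ (Q v : K) (m : ℕ) (l : Lab) : K :=
  (if l.1 then Q else -Q⁻¹) * v ^ (2 * ((l.2 : ℤ) + 1 - m))

/-- the operator of the generator number `i` -/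
noncomputable def opQ (Q v : K) (m : ℕ) : ℕ → Module.End K (List Lab →₀ K)
  | 0 => Xop (xQ Q v m) 0
  | i + 1 => Top v (xQ Q v m) i

/-- the operator of a word in the generators -/
noncomputable def opWQ (Q v : K) (m : ℕ) (l : List ℕ) : Module.End K (List Lab →₀ K) :=
  (l.map (opQ Q v m)).prod

/-- genericity -/
def GenQ (Q v : K) : Prop :=
  Q ≠ 0 ∧ v ≠ 0 ∧ (∀ k : ℤ, k ≠ 0 → v ^ k ≠ 1) ∧ ∀ k : ℤ, Q ^ 2 * v ^ (2 * k) ≠ -1

/-- the parameter -/
def Qt (t : Bool) (v : K) : K := if t then v else 1

/-- exchange of the components of a label -/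
def flipL (l : Lab) : Lab := (!l.1, l.2)

/-- exchange of the components of a state -/
def flip (S : St) : St := S.image flipL

/-- trace on the words from `S` to `S'` of `φ` composed with the exchange of the components -/
noncomputable def trJ (n : ℕ) (S S' : St) (φ : Module.End K (List Lab →₀ K)) : K :=
  ∑ w ∈ paths n S S', φ (Finsupp.single (w.map flipL) 1) w

end ops

/-- block matrices -/
def IsBlk {K : Type*} [Field K] (n : ℕ) (S : St) (M : Matrix (allPaths n S) (allPaths n S) K) : Prop :=
  ∀ w w', (∀ S', ¬ (w.1 ∈ paths n S S' ∧ w'.1 ∈ paths n S S')) → M w w' = 0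

/-- number of letters (type `B`), of nonzero letters (type `D`) -/
def lenT (t : Bool) (l : List ℕ) : ℕ := (l.filter fun i => t || decide (i ≠ 0)).length

/-! ## Ribbons -/

/-- weight of a ribbon -/
noncomputable def wT (t : Bool) (m k a : ℕ) (l : Lab) : ℤ[X] :=
  if t then wq m k a l else if l.1 then X ^ (k + a + l.2 - m) else - X ^ (k + a + l.2 - m)

/-- adding ribbons of sizes `l` to a vector of states with `k` boxes -/
noncomputable def fockT (t : Bool) (m : ℕ) : ℕ → List ℕ → (St →₀ ℤ[X]) → (St →₀ ℤ[X])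
  | _, [], u => u
  | k, a :: l, u => fockT t m (k + a) l (Rib (wT t m k a) a u)

/-- the vector of the negative cycle type `l` -/
noncomputable def vecT (t : Bool) (m : ℕ) (l : List ℕ) : St →₀ ℤ[X] :=
  fockT t m 0 l (Finsupp.single (vac m) 1)

section vectors

variable {R : Type} [CommRing R]

/-- the place `a` steps lower -/
def dn (a : ℕ) (l : Lab) : Lab := (l.1, l.2 - a)

/-- removing an `a`-ribbon, the adjoint of `Rib w a` -/
noncomputable def Low (w : Lab → R) (a : ℕ) : (St →₀ R) →ₗ[R] (St →₀ R) :=
  Finsupp.linearCombination R fun S =>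
    ∑ y ∈ S.filter (fun y => a ≤ y.2 ∧ dn a y ∉ S),
      Finsupp.single (insert (dn a y) (S.erase y)) ((-1) ^ cnt S (dn a y) a * w (dn a y))

/-- diagonal operator -/
noncomputable def Dg (f : Lab → R) : (St →₀ R) →ₗ[R] (St →₀ R) :=
  Finsupp.linearCombination R fun S => Finsupp.single S (∑ l ∈ S, f l)

/-- scalar product -/
noncomputable def dot (u u' : St →₀ R) : R := u.sum fun S c => c * u' S

/-- square of the norm -/
noncomputable def nrm (u : St →₀ R) : R := u.sum fun _ c => c ^ 2

/-- adding ribbons of sizes `l` with the weight `w` -/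
noncomputable def app (w : Lab → R) : List ℕ → (St →₀ R) → (St →₀ R)
  | [], u => u
  | a :: l, u => app w l (Rib w a u)

/-- vectors of states with `n` beads in each component and `k` boxes -/
def GV (n k : ℕ) (u : St →₀ R) : Prop := ∀ S ∈ u.support, SD_Good n k S

end vectors

/-- weights at `q = -1` -/
def xt (t : Bool) (l : Lab) : ℤ := (if t || l.1 then 1 else -1) * (-1) ^ l.2

/-- weights at `q = 1` -/
def yt (l : Lab) : ℤ := if l.1 then 1 else -1

/-- the state of the pair of one column partitions `(1^i; 1^k)`, with `n` beads in each component -/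
def col (n i k : ℕ) : St :=
  (((Finset.range (n + 1)).erase (n - i)).image fun p => (true, p)) ∪
    (((Finset.range (n + 1)).erase (n - k)).image fun p => (false, p))

/-- `Σ_S ((U^j vecT) S)^2` with `U` adding a box -/
noncomputable def PU (t : Bool) (n : ℕ) (β : List ℕ) (j : ℕ) : ℤ[X] :=
  nrm (((Rib (fun _ => (1 : ℤ[X])) 1) ^ j) (vecT t n β))

/-- the two smallest distinct parts `b < a` have different parity, and the sum of the parts `b` is at least
`a` (type `B`), larger than `a` (type `D`) -/
def Mixed (t : Bool) (l : List ℕ) : Prop :=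
  ∃ (b a k j : ℕ) (l' : List ℕ), l = List.replicate k b ++ List.replicate (j + 1) a ++ l' ∧ b < a ∧
    (∀ c ∈ l', a < c) ∧ Odd (a - b) ∧ (if t then a ≤ k * b else a < k * b)

end Pool.Agent.helper27.PC
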