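import Pool.Agent.helper27.PC2.REPQ

/-!
# PC project, second half: assembly
-/

namespace Pool.Agent.helper27.PC

open Module Polynomial

/-! ### polynomials in `v²` -/

theorem coeff_aeval_v (p : ℤ[X]) (k : ℤ) : (aeval (v ^ 2) p : A).coeff k =
    if 0 ≤ k ∧ k % 2 = 0 then p.coeff (k / 2).toNat else 0 := by
  have hv : (v ^ 2 : A) = LaurentPolynomial.T 2 := by
    rw [v, LaurentPolynomial.T_pow]; norm_num
  rw [hv]
  induction p using Polynomial.induction_on' with
  | add p q hp hq =>
    rw [map_add, AddMonoidAlgebra.coeff_add, Finsupp.add_apply, hp, hq]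
    split_ifs <;> simp
  | monomial m a =>
    rw [aeval_monomial, LaurentPolynomial.T_pow]
    have h1 : ((algebraMap ℤ A) a * LaurentPolynomial.T ((m : ℤ) * 2)) =
        a • (LaurentPolynomial.T ((m : ℤ) * 2) : A) := by
      rw [Algebra.smul_def]
    rw [h1]
    have h2 : (a • (LaurentPolynomial.T ((m : ℤ) * 2) : A)).coeff k =
        a * (LaurentPolynomial.T ((m : ℤ) * 2) : A).coeff k := by
      rw [AddMonoidAlgebra.coeff_smul, Finsupp.smul_apply, smul_eq_mul]
    rw [h2, LaurentPolynomial.T_apply, coeff_monomial]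
    by_cases hk : (m : ℤ) * 2 = k
    · subst hk
      have h3 : ((m : ℤ) * 2 / 2).toNat = m := by
        rw [Int.mul_ediv_cancel _ (by norm_num)]; simp
      rw [if_pos rfl, if_pos ⟨by positivity, by omega⟩, h3, if_pos rfl, mul_one]
    · rw [if_neg hk, mul_zero]
      split_ifs with h4 h5
      · exfalso
        apply hk
        omega
      · rfl
      · rfl

theorem aeval_v_coeff (p : ℤ[X]) (k : ℕ) : (aeval (v ^ 2) p : A).coeff (2 * (k : ℤ)) = p.coeff k := by
  rw [coeff_aeval_v, if_pos ⟨by positivity, by omega⟩]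
  congr 1
  omega

theorem aeval_v_injective : Function.Injective (fun p : ℤ[X] => (aeval (v ^ 2) p : A)) := by
  intro p q h
  ext k
  rw [← aeval_v_coeff p, ← aeval_v_coeff q]
  exact congrArg (fun a : A => a.coeff (2 * (k : ℤ))) h

/-- `c N = P(v²)` with `c > 0` and `N` in `ℕ[v²]`: the coefficients of `P` are nonnegative -/
theorem nonneg_of_natPoly {N : A} {P : ℤ[X]} {c : ℕ} (hN : NatPoly N)
    (h : (c : A) * N = aeval (v ^ 2) P) (k : ℕ) : 0 ≤ P.coeff k := by
  rw [← aeval_v_coeff P k, ← h]
  have h1 : ((c : A) * N) = (c : ℕ) • N := by rw [nsmul_eq_mul]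
  rw [h1, AddMonoidAlgebra.coeff_smul, Finsupp.smul_apply]
  exact nsmul_nonneg (hN _).1 c

theorem natPoly_of_nonneg {N : A} {P : ℤ[X]} {c : ℕ} (hc : 0 < c) (hP : ∀ k, 0 ≤ P.coeff k)
    (h : (c : A) * N = aeval (v ^ 2) P) : NatPoly N := by
  intro k
  have h1 : ((c : A) * N) = (c : ℕ) • N := by rw [nsmul_eq_mul]
  have h2 : (c : ℤ) * N.coeff k = (aeval (v ^ 2) P : A).coeff k := by
    rw [← h, h1, AddMonoidAlgebra.coeff_smul, Finsupp.smul_apply, nsmul_eq_mul]
  rw [coeff_aeval_v] at h2
  have hc' : (0 : ℤ) < c := by exact_mod_cast hc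
  split_ifs at h2 with h3
  · constructor
    · by_contra h4
      push Not at h4
      have h5 := hP (k / 2).toNat
      rw [← h2] at h5
      nlinarith
    · intro _
      exact ⟨(k / 2).toNat, by omega⟩
  · have h4 : N.coeff k = 0 := by
      rcases mul_eq_zero.1 h2 with h5 | h5
      · omega
      · exact h5
    rw [h4]
    exact ⟨le_rfl, fun h => absurd rfl h⟩

/-- a polynomial with nonnegative coefficients is at most as large at `-1` as at `1` -/
theorem eval_le_of_nonneg (P : ℤ[X]) (hP : ∀ k, 0 ≤ P.coeff k) : P.eval (-1) ≤ P.eval 1 := by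
  rw [eval_eq_sum_range, eval_eq_sum_range]
  apply Finset.sum_le_sum
  intro k _
  apply mul_le_mul_of_nonneg_left _ (hP k)
  rw [one_pow]
  rcases neg_one_pow_eq_or ℤ k with h | h <;> rw [h] <;> norm_num

/-! ### the field -/

theorem K_inj (K : Type) [Field K] [Algebra A K] (hinj : Function.Injective (algebraMap A K)) :
    Function.Injective (fun p : ℤ[X] => p.eval₂ (Int.castRingHom K) ((algebraMap A K v) ^ 2)) := by
  intro p q h
  apply aeval_v_injective
  apply hinj
  have e1 : ∀ p : ℤ[X], algebraMap A K (aeval (v ^ 2) p) =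
      p.eval₂ (Int.castRingHom K) ((algebraMap A K v) ^ 2) := by
    intro p
    rw [aeval_def, hom_eval₂, map_pow]
    congr 1
    exact RingHom.ext_int _ _
  rw [e1, e1]
  exact h

theorem K_eval (K : Type) [Field K] [Algebra A K] (p : ℤ[X]) : algebraMap A K (aeval (v ^ 2) p) =
      p.eval₂ (Int.castRingHom K) ((algebraMap A K v) ^ 2) := by
  rw [aeval_def, hom_eval₂, map_pow]
  congr 1
  exact RingHom.ext_int _ _

theorem K_charZero (K : Type) [Field K] [Algebra A K] (hinj : Function.Injective (algebraMap A K)) :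
    CharZero K := by
  refine ⟨fun a b h => ?_⟩
  have h1 : algebraMap A K (aeval (v ^ 2) (a : ℤ[X])) = algebraMap A K (aeval (v ^ 2) (b : ℤ[X])) := by
    rw [K_eval, K_eval]
    simpa using h
  have h2 := aeval_v_injective (hinj h1)
  exact_mod_cast h2

/-- the field of fractions of `ℤ[v, v⁻¹]` -/
abbrev KA := FractionRing A

/-! ### sums of squares -/

section sums

variable (hNFB2 : NFB2_stmt) (hNFD2 : NFD2_stmt) (hDZ : DZ_stmt)

include hNFB2 in
/-- type `B` -/
theorem sumB (n : ℕ) (H : Type) [Ring H] [Algebra A H] (T : Basis (W n) A H) (hn : 1 ≤ n)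
    (hT : IsHecke n T) (β α : List ℕ) (hty : Typ n β α) (f : St → ℤ[X])
    (hf : ∀ S,
      (algebraMap A KA v) ^ (lenT true (word2 β α)) *
        trP n (vac n) S (opWQ (Qt true (algebraMap A KA v)) (algebraMap A KA v) n (word2 β α)) =
        (f S).eval₂ (Int.castRingHom KA) ((algebraMap A KA v) ^ 2) ∧
      (algebraMap A KA v) ^ (lenT true (word2 β α)) *
        trP n (vac n) S (opWQ (Qt true (algebraMap A KA v)) (algebraMap A KA v) n (word2 β α).reverse) =
        (f S).eval₂ (Int.castRingHom KA) ((algebraMap A KA v) ^ 2)) :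
    ((1 : ℕ) : A) * N T (std2 n β α) = aeval (v ^ 2) (∑ S ∈ ends n (vac n), f S ^ 2) := by
  have hinj : Function.Injective (algebraMap A KA) := IsFractionRing.injective A _
  apply hinj
  rw [Nat.cast_one, one_mul, hNFB2 n H T hn hT β α hty KA hinj, K_eval,
    eval₂_finsetSum]
  apply Finset.sum_congr rfl
  intro S _
  rw [(hf S).1, (hf S).2, eval₂_pow]
  ring

include hNFD2 in
/-- type `D` -/
theorem sumD (n : ℕ) (H : Type) [Ring H] [Algebra A H] (T : Basis (WD n) A H) (hn : 2 ≤ n)
    (hT : GHecke (genD n) T) (β α : List ℕ) (hty : Typ n β α) (hev : Even β.length)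
    (f h : St → ℤ[X])
    (hf : ∀ S,
      (algebraMap A KA v) ^ (lenT false (word2 β α)) *
        trP n (vac n) S (opWQ (Qt false (algebraMap A KA v)) (algebraMap A KA v) n (word2 β α)) =
        (f S).eval₂ (Int.castRingHom KA) ((algebraMap A KA v) ^ 2) ∧
      (algebraMap A KA v) ^ (lenT false (word2 β α)) *
        trP n (vac n) S (opWQ (Qt false (algebraMap A KA v)) (algebraMap A KA v) n (word2 β α).reverse) =
        (f S).eval₂ (Int.castRingHom KA) ((algebraMap A KA v) ^ 2))
    (hh : ∀ S, flip S = S →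
      (algebraMap A KA v) ^ (lenT false (word2 β α)) *
        trJ n (vac n) S (opWQ (Qt false (algebraMap A KA v)) (algebraMap A KA v) n (word2 β α)) =
        (h S).eval₂ (Int.castRingHom KA) ((algebraMap A KA v) ^ 2) ∧
      (algebraMap A KA v) ^ (lenT false (word2 β α)) *
        trJ n (vac n) S (opWQ (Qt false (algebraMap A KA v)) (algebraMap A KA v) n (word2 β α).reverse) =
        (h S).eval₂ (Int.castRingHom KA) ((algebraMap A KA v) ^ 2)) :
    ((2 : ℕ) : A) * GN (genD n) T (stdD n β α) = aeval (v ^ 2) (∑ S ∈ ends n (vac n), f S ^ 2 +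
      ∑ S ∈ (ends n (vac n)).filter (fun S => flip S = S), h S ^ 2) := by
  have hinj : Function.Injective (algebraMap A KA) := IsFractionRing.injective A _
  apply hinj
  have e : algebraMap A KA (((2 : ℕ) : A) * GN (genD n) T (stdD n β α)) =
      2 * algebraMap A KA (GN (genD n) T (stdD n β α)) := by
    rw [map_mul, map_natCast]; norm_num
  rw [e, hNFD2 n H T hn hT β α hty hev KA hinj, K_eval, eval₂_add,
    eval₂_finsetSum, eval₂_finsetSum]
  congr 1
  · apply Finset.sum_congr rfl
    intro S _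
    rw [(hf S).1, (hf S).2, eval₂_pow]
    ring
  · apply Finset.sum_congr rfl
    intro S hS
    rw [Finset.mem_filter] at hS
    rw [(hh S hS.2).1, (hh S hS.2).2, eval₂_pow]
    ring

include hDZ in
/-- type `D` with a negative cycle: the twisted traces vanish -/
theorem zeroJ (n : ℕ) (β α : List ℕ) (hty : Typ n β α) (hβ : β ≠ []) (K : Type) [Field K] [Algebra A K]
    (hinj : Function.Injective (algebraMap A K)) (S : St) (hS : flip S = S) :
      (algebraMap A K v) ^ (lenT false (word2 β α)) *
        trJ n (vac n) S (opWQ (Qt false (algebraMap A K v)) (algebraMap A K v) n (word2 β α)) =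
        (0 : ℤ[X]).eval₂ (Int.castRingHom K) ((algebraMap A K v) ^ 2) ∧
      (algebraMap A K v) ^ (lenT false (word2 β α)) *
        trJ n (vac n) S (opWQ (Qt false (algebraMap A K v)) (algebraMap A K v) n (word2 β α).reverse) =
        (0 : ℤ[X]).eval₂ (Int.castRingHom K) ((algebraMap A K v) ^ 2) := by
  have := K_charZero K hinj
  obtain ⟨h1, h2⟩ := hDZ K _ (TR_generic K hinj) n β α hty hβ S hS
  have h3 : (2 : K) ≠ 0 := two_ne_zero
  have h1' := (mul_eq_zero.1 h1).resolve_left h3
  have h2' := (mul_eq_zero.1 h2).resolve_left h3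
  have hq : Qt false (algebraMap A K v) = 1 := rfl
  rw [hq, h1', h2', mul_zero, eval₂_zero]
  exact ⟨rfl, rfl⟩

end sums

/-! ### all positive cycles of length one -/

section unit

variable (hNFB2 : NFB2_stmt) (hNFD2 : NFD2_stmt) (hDZ : DZ_stmt) (hNU : NU_stmt)

include hNFB2 hNU in
theorem puB (n : ℕ) (H : Type) [Ring H] [Algebra A H] (T : Basis (W n) A H) (hn : 1 ≤ n)
    (hT : IsHecke n T) (β : List ℕ) (j : ℕ) (hty : Typ n β (List.replicate j 1)) :
    ((1 : ℕ) : A) * N T (std2 n β (List.replicate j 1)) = aeval (v ^ 2) (PU true n β j) := by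
  have hinj : Function.Injective (algebraMap A KA) := IsFractionRing.injective A _
  rw [sumB hNFB2 n H T hn hT β _ hty
    (fun S => (((Rib (fun _ => (1 : ℤ[X])) 1) ^ j) (vecT true n β)) S)
    (fun S => (hNU true KA _ (TR_generic _ hinj) n β j hty).1 S),
    (hNU true KA _ (TR_generic _ hinj) n β j hty).2]

include hNFD2 hDZ hNU in
theorem puD (n : ℕ) (H : Type) [Ring H] [Algebra A H] (T : Basis (WD n) A H) (hn : 2 ≤ n)
    (hT : GHecke (genD n) T) (β : List ℕ) (j : ℕ) (hty : Typ n β (List.replicate j 1))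
    (hev : Even β.length) (hβ : β ≠ []) :
    ((2 : ℕ) : A) * GN (genD n) T (stdD n β (List.replicate j 1)) =
      aeval (v ^ 2) (PU false n β j) := by
  have hinj : Function.Injective (algebraMap A KA) := IsFractionRing.injective A _
  rw [sumD hNFD2 n H T hn hT β _ hty hev
    (fun S => (((Rib (fun _ => (1 : ℤ[X])) 1) ^ j) (vecT false n β)) S) (fun _ => 0)
    (fun S => (hNU false KA _ (TR_generic _ hinj) n β j hty).1 S)
    (fun S hS => zeroJ hDZ n β _ hty hβ KA hinj S hS),
    (hNU false KA _ (TR_generic _ hinj) n β j hty).2]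
  congr 1
  simp

end unit

end Pool.Agent.helper27.PC
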