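import Pool.Agent.helper27.PC2.Fin2

/-!
# PC project, second half: assembly, uniform statements for the types `B` and `D`
-/

namespace Pool.Agent.helper27.PC

open Module Polynomial

/-! ### transfer along isomorphisms of groups -/

section transfer

variable {ι G G' : Type} [Group G] [Group G'] (e : G ≃* G') (s : ι → G)

theorem prod_map_equiv (l : List ι) : (l.map fun i => e (s i)).prod = e (l.map s).prod := by
  rw [map_list_prod, List.map_map]
  rfl

theorem glen_equiv (w : G) : glen (fun i => e (s i)) (e w) = glen s w := by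
  unfold glen
  congr 1
  ext k
  simp only [Set.mem_ofPred_eq, prod_map_equiv, EmbeddingLike.apply_eq_iff_eq]

theorem GMin_equiv {w : G} (h : GMin s w) : GMin (fun i => e (s i)) (e w) := by
  intro g
  obtain ⟨g, rfl⟩ := e.surjective g
  rw [← map_inv, ← map_mul, ← map_mul, glen_equiv, glen_equiv]
  exact h g

variable {H : Type} [Ring H] [Algebra A H]

theorem GHecke_equiv {T : Basis G A H} (hT : GHecke s T) :
    GHecke (fun i => e (s i)) (T.reindex e.toEquiv) where
  quad i := by
    have h : (T.reindex e.toEquiv) (e (s i)) = T (s i) := by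
      rw [Basis.reindex_apply]; congr 1; exact e.symm_apply_apply _
    rw [h]
    exact hT.quad i
  mul w w' h := by
    obtain ⟨w, rfl⟩ := e.surjective w
    obtain ⟨w', rfl⟩ := e.surjective w'
    have h1 : ∀ x : G, (T.reindex e.toEquiv) (e x) = T x := by
      intro x
      rw [Basis.reindex_apply]; congr 1; exact e.symm_apply_apply _
    rw [← e.map_mul, glen_equiv, glen_equiv, glen_equiv] at h
    rw [← e.map_mul w w', h1, h1, h1]
    exact hT.mul w w' h

theorem GN_equiv (T : Basis G A H) (w : G) :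
    GN (fun i => e (s i)) (T.reindex e.toEquiv) (e w) = GN s T w := by
  have h1 : ∀ x : G, (T.reindex e.toEquiv) (e x) = T x := by
    intro x
    rw [Basis.reindex_apply]; congr 1; exact e.symm_apply_apply _
  unfold GN
  rw [← map_inv, h1, h1, glen_equiv]

end transfer

/-! ### the two types together -/

/-- the Weyl group of type `B_n` (`t = true`) or `D_n` (`t = false`), as a subgroup of `W(B_n)` -/
def Wty : Bool → (n : ℕ) → Subgroup (W n)
  | true, _ => ⊤
  | false, n => WD n

/-- its simple reflections -/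
def genTy : (t : Bool) → (n : ℕ) → Fin n → Wty t n
  | true, n => fun i => (⟨gen n i, Subgroup.mem_top _⟩ : (⊤ : Subgroup (W n)))
  | false, n => genD n

/-- the conjugacy class of `w` is positive: `N^{w'} ∈ ℕ[v²]` for an element `w'` of minimal length of the
class -/
def PosClass {t : Bool} {n : ℕ} {H : Type} [Ring H] [Algebra A H] (T : Basis (Wty t n) A H)
    (w : Wty t n) : Prop :=
  ∃ w' : Wty t n, IsConj w w' ∧ GMin (genTy t n) w' ∧ NatPoly (GN (genTy t n) T w')

/-- the conjugacy class of `w` is not positive: `N^{w'} ∉ ℕ[v²]` for an element `w'` of minimal length of the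
class -/
def NotPosClass {t : Bool} {n : ℕ} {H : Type} [Ring H] [Algebra A H] (T : Basis (Wty t n) A H)
    (w : Wty t n) : Prop :=
  ∃ w' : Wty t n, IsConj w w' ∧ GMin (genTy t n) w' ∧ ¬ NatPoly (GN (genTy t n) T w')

/-- values of `N` at standard elements -/
def NStd : Bool → (n : ℕ) → List ℕ → List ℕ → A → Prop
  | true, n, β, α, x => ∃ (H : Type) (_ : Ring H) (_ : Algebra A H) (T : Basis (W n) A H),
      IsHecke n T ∧ x = N T (std2 n β α)
  | false, n, β, α, x => ∃ (H : Type) (_ : Ring H) (_ : Algebra A H) (T : Basis (WD n) A H),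
      GHecke (genD n) T ∧ x = GN (genD n) T (stdD n β α)

section key

variable (hLEN2B : LEN2B_stmt) (hSIG : SIG_stmt)

include hLEN2B hSIG in
theorem key (t : Bool) (n : ℕ) (hn : if t then 1 ≤ n else 2 ≤ n) (H : Type) [Ring H] [Algebra A H]
    (T : Basis (Wty t n) A H) (hT : GHecke (genTy t n) T) (w : Wty t n) (β α : List ℕ)
    (hty : Typ n β α) (hw : IsConj (w : W n) (std2 n β α)) :
    (t = true ∨ Even β.length) ∧ ∃ w' : Wty t n, IsConj w w' ∧ GMin (genTy t n) w' ∧
      NStd t n β α (GN (genTy t n) T w') := by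
  cases t
  · obtain ⟨h1, h2⟩ := hSIG n w β α hn hty hw
    obtain ⟨T', hT', w', h3, h4, h5⟩ := h2 H T hT
    exact ⟨Or.inr h1, w', h3, h4, H, inferInstance, inferInstance, T', hT', h5⟩
  · refine ⟨Or.inl rfl, ?_⟩
    set e : (⊤ : Subgroup (W n)) ≃* W n := Subgroup.topEquiv with he
    have hgen : (fun i => e (genTy true n i)) = gen n := rfl
    have hT' := GHecke_equiv e (genTy true n) hT
    rw [hgen] at hT'
    have hT2 : IsHecke n (T.reindex e.toEquiv) := ⟨hT'.quad, hT'.mul⟩
    refine ⟨e.symm (std2 n β α), ?_, ?_, H, inferInstance, inferInstance, T.reindex e.toEquiv, hT2, ?_⟩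
    · rw [isConj_iff] at hw ⊢
      obtain ⟨c, hc⟩ := hw
      exact ⟨e.symm c, Subtype.ext hc⟩
    · have h1 : GMin (gen n) (std2 n β α) := (hLEN2B n β α hty).2
      have h2 := GMin_equiv e.symm (gen n) h1
      exact h2
    · have h1 := GN_equiv e (genTy true n) T (e.symm (std2 n β α))
      rw [hgen, MulEquiv.apply_symm_apply] at h1
      exact h1.symm

end key

section values

variable (hNFB2 : NFB2_stmt) (hNFD2 : NFD2_stmt) (hDZ : DZ_stmt) (hNU : NU_stmt) (hAA : AA_stmt)
  (hAAD : AAD_stmt)

include hNFB2 hNFD2 hDZ hNU in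
theorem val1 (t : Bool) (n : ℕ) (hn : if t then 1 ≤ n else 2 ≤ n) (β : List ℕ) (j : ℕ)
    (hty : Typ n β (List.replicate j 1)) (hev : t = true ∨ Even β.length) (hβ : β ≠ []) (x : A)
    (hx : NStd t n β (List.replicate j 1) x) :
    ∃ c : ℕ, 0 < c ∧ (c : A) * x = aeval (v ^ 2) (PU t n β j) := by
  cases t
  · obtain ⟨H, i1, i2, T, hT, rfl⟩ := hx
    have hev' : Even β.length := hev.resolve_left (by simp)
    exact ⟨2, by norm_num, puD hNFD2 hDZ hNU n H T hn hT β j hty hev' hβ⟩
  · obtain ⟨H, i1, i2, T, hT, rfl⟩ := hx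
    exact ⟨1, by norm_num, puB hNFB2 hNU n H T hn hT β j hty⟩

end values

end Pool.Agent.helper27.PC
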