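import Pool.Agent.helper27.PC2.Fin3

/-!
# PC project, second half: assembly, the theorems
-/

namespace Pool.Agent.helper27.PC

open Module Polynomial

section values2

variable (hNFB2 : NFB2_stmt) (hNFD2 : NFD2_stmt) (hDZ : DZ_stmt) (hAA : AA_stmt) (hAAD : AAD_stmt)

include hNFB2 hNFD2 hDZ hAA hAAD in
/-- some positive cycle of length at least two -/
theorem val2 (t : Bool) (n : ℕ) (hn : if t then 1 ≤ n else 3 ≤ n) (β α : List ℕ)
    (hty : Typ n β α) (hev : t = true ∨ Even β.length) (hα : ∃ a ∈ α, 2 ≤ a) (x : A)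
    (hx : NStd t n β α x) :
    ∃ (c : ℕ) (P : ℤ[X]), 0 < c ∧ (c : A) * x = aeval (v ^ 2) P ∧ P.coeff 1 < 0 := by
  have hinj : Function.Injective (algebraMap A KA) := IsFractionRing.injective A _
  have := K_charZero KA hinj
  cases t
  · obtain ⟨H, i1, i2, T, hT, rfl⟩ := hx
    have hn3 : 3 ≤ n := hn
    have hev' : Even β.length := hev.resolve_left (by simp)
    by_cases hβ : β = []
    · subst hβ
      obtain ⟨f, h, hf, hh, hneg⟩ := hAAD KA _ (TR_generic _ hinj) (K_inj KA hinj) n α hn3 hty hα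
      exact ⟨2, _, by norm_num, sumD hNFD2 n H T (by omega) hT [] α hty hev' f h hf hh, hneg⟩
    · obtain ⟨f, hf, hneg⟩ := hAA false KA _ (TR_generic _ hinj) (K_inj KA hinj) n β α hty hev hα
      refine ⟨2, _, by norm_num, sumD hNFD2 n H T (by omega) hT β α hty hev' f (fun _ => 0) hf
        (fun S hS => zeroJ hDZ n β _ hty hβ KA hinj S hS), ?_⟩
      have e : ∑ S ∈ (ends n (vac n)).filter (fun S => flip S = S), ((0 : ℤ[X])) ^ 2 = 0 := by simp
      rw [e, add_zero]
      exact hneg
  · obtain ⟨H, i1, i2, T, hT, rfl⟩ := hx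
    obtain ⟨f, hf, hneg⟩ := hAA true KA _ (TR_generic _ hinj) (K_inj KA hinj) n β α hty hev hα
    exact ⟨1, _, by norm_num, sumB hNFB2 n H T hn hT β α hty f hf, hneg⟩

end values2

/-! ### sorted lists -/

theorem sorted_split (l : List ℕ) (b : ℕ) (hs : l.Pairwise (· ≤ ·)) (hb : ∀ a ∈ l, b ≤ a) :
    l = List.replicate (l.count b) b ++ l.filter (fun a => b < a) := by
  induction l with
  | nil => simp
  | cons a l ih =>
    rw [List.pairwise_cons] at hs
    have ih' := ih hs.2 (fun x hx => hb x (List.mem_cons_of_mem _ hx))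
    have ha := hb a List.mem_cons_self
    rcases Nat.eq_or_lt_of_le ha with h | h
    · subst h
      rw [List.count_cons_self, List.replicate_succ, List.cons_append, List.filter_cons_of_neg (by simp),
        ← ih']
    · have h1 : ∀ x ∈ l, b < x := fun x hx => lt_of_lt_of_le h (hs.1 x hx)
      have h2 : b ∉ a :: l := by
        rw [List.mem_cons, not_or]
        exact ⟨fun e => by omega, fun hx => absurd (h1 b hx) (lt_irrefl _)⟩
      rw [List.count_eq_zero_of_not_mem h2, List.replicate_zero, List.nil_append]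
      symm
      rw [List.filter_eq_self]
      intro x hx
      rcases List.mem_cons.1 hx with rfl | hx
      · simpa using h
      · simpa using h1 x hx

theorem mixed_of (l : List ℕ) (h1 : ∀ a ∈ l, 1 ≤ a) (hs : l.Pairwise (· ≤ ·)) (hc : 2 ≤ l.count 1)
    (h2 : 2 ∈ l) : Mixed true l := by
  have e1 := sorted_split l 1 hs h1
  set l₁ := l.filter (fun a => 1 < a) with hl₁
  have hs₁ : l₁.Pairwise (· ≤ ·) := hs.filter _
  have h21 : 2 ∈ l₁ := by rw [hl₁, List.mem_filter]; exact ⟨h2, by simp⟩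
  have hb₁ : ∀ a ∈ l₁, 2 ≤ a := by
    intro a ha
    rw [hl₁, List.mem_filter] at ha
    have := ha.2
    simp only [decide_eq_true_eq] at this
    exact this
  have e2 := sorted_split l₁ 2 hs₁ hb₁
  have hpos : 0 < l₁.count 2 := List.count_pos_iff.2 h21
  obtain ⟨j, hj⟩ : ∃ j, l₁.count 2 = j + 1 := ⟨l₁.count 2 - 1, by omega⟩
  refine ⟨1, 2, l.count 1, j, l₁.filter (fun a => 2 < a), ?_, by norm_num, ?_, by decide, ?_⟩
  · rw [List.append_assoc, ← hj, ← e2]; exact e1
  · intro c hc
    rw [List.mem_filter] at hc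
    have := hc.2
    simpa using this
  · simp only [if_true]; omega

/-! ### negative coefficients -/

theorem exists_neg_of_lt (P : ℤ[X]) (h : P.eval 1 < P.eval (-1)) : ∃ k, P.coeff k < 0 := by
  by_contra h1
  push Not at h1
  exact absurd (eval_le_of_nonneg P h1) (not_le.2 h)

theorem nrm_nonneg (u : St →₀ ℤ) : 0 ≤ nrm u := Finsupp.sum_nonneg fun _ _ => sq_nonneg _

theorem nrm_pos {u : St →₀ ℤ} (h : u ≠ 0) : 0 < nrm u := by
  obtain ⟨S, hS⟩ := Finsupp.support_nonempty_iff.2 h
  unfold nrm Finsupp.sum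
  apply Finset.sum_pos'
  · intro _ _; exact sq_nonneg _
  · exact ⟨S, hS, by have := Finsupp.mem_support_iff.1 hS; positivity⟩

theorem nrm_zero : nrm (0 : St →₀ ℤ) = 0 := by simp [nrm]

section neg

variable (hLG : LG_stmt) (hDL : DL_stmt) (hYD : YD_stmt) (hLT : LT_stmt) (hCO : CO_stmt)
  (hEV : EV_stmt) (hONE : ONE_stmt)

include hLG in
theorem GV_app (w : Lab → ℤ) (n : ℕ) : ∀ (l : List ℕ) (k : ℕ) (u : St →₀ ℤ), (∀ a ∈ l, 1 ≤ a) →
    GV n k u → GV n (k + l.sum) (app w l u) := by
  intro l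
  induction l with
  | nil => intro k u _ h; simpa [app] using h
  | cons a l ih =>
    intro k u hl h
    have h1 := (hLG ℤ w n k a u (hl a List.mem_cons_self) h).1
    have h2 := ih (k + a) _ (fun b hb => hl b (List.mem_cons_of_mem _ hb)) h1
    rw [List.sum_cons, ← add_assoc]
    exact h2

theorem GV_vac (n : ℕ) : GV n 0 (Finsupp.single (vac n) (1 : ℤ)) := by
  intro S hS
  rw [Finsupp.mem_support_iff, Finsupp.single_apply] at hS
  split_ifs at hS with h
  · rw [← h]; exact SD_good_vac n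
  · exact absurd rfl hS

include hLG hDL hYD hLT hCO hEV hONE in
theorem neg1 (t : Bool) (β : List ℕ) (j : ℕ) (h1 : ∀ a ∈ β, 1 ≤ a) (hs : β.Pairwise (· ≤ ·))
    (hβ : β ≠ []) (hev : t = true ∨ Even β.length) (hj : 1 ≤ j) :
    ∃ k, (PU t (β.sum + j) β j).coeff k < 0 := by
  by_cases hex : t = true ∧ β = [1, 1]
  · obtain ⟨rfl, rfl⟩ := hex
    exact ⟨2, by have := hONE j hj; simpa using this⟩
  · set n := β.sum + j with hn
    obtain ⟨e1, e2⟩ := hEV t n β j h1 (by omega)
    apply exists_neg_of_lt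
    rw [e1, e2]
    set X := app (xt t) β (Finsupp.single (vac n) 1) with hX
    set Y := app yt β (Finsupp.single (vac n) 1) with hY
    have gX : GV n β.sum X := by
      have := GV_app hLG (xt t) n β 0 _ h1 (GV_vac n)
      rwa [zero_add] at this
    have gY : GV n β.sum Y := by
      have := GV_app hLG yt n β 0 _ h1 (GV_vac n)
      rwa [zero_add] at this
    have hone : ∀ l : Lab, (fun _ : Lab => (1 : ℤ)) l * (fun _ : Lab => (1 : ℤ)) l = 1 := by
      intro l; norm_num
    rw [hDL ℤ _ hone n β.sum 1 j X le_rfl gX (by omega), hDL ℤ _ hone n β.sum 1 j Y le_rfl gY (by omega)]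
    have hDY : ∀ i, 1 ≤ i → ((Low (fun _ => (1 : ℤ)) 1) ^ i) Y = 0 := by
      intro i hi
      obtain ⟨i, rfl⟩ : ∃ m, i = m + 1 := ⟨i - 1, by omega⟩
      rw [pow_succ, Module.End.mul_apply, hYD n β h1 (by omega), map_zero]
    have hY0 : ∑ i ∈ Finset.range (j + 1),
        (((j.choose i) ^ 2 * (j - i).factorial * (2 * 1) ^ (j - i) : ℕ) : ℤ) *
          nrm (((Low (fun _ => (1 : ℤ)) 1) ^ i) Y) =
        ((j.factorial * 2 ^ j : ℕ) : ℤ) * nrm Y := by
      rw [Finset.sum_eq_single 0]
      · simp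
      · intro i _ hi
        rw [hDY i (by omega), nrm_zero, mul_zero]
      · intro h; exact absurd (Finset.mem_range.2 (by omega)) h
    rw [hY0]
    set c : ℕ → ℤ := fun i => (((j.choose i) ^ 2 * (j - i).factorial * (2 * 1) ^ (j - i) : ℕ) : ℤ) with hc
    have hcpos : ∀ i ∈ Finset.range (j + 1), 0 < c i := by
      intro i hi
      rw [Finset.mem_range] at hi
      have := Nat.choose_pos (show i ≤ j by omega)
      have := (j - i).factorial_pos
      simp only [hc]
      positivity
    have hX0 : c 0 * nrm X + c 1 * nrm (Low (fun _ => (1 : ℤ)) 1 X) ≤ ∑ i ∈ Finset.range (j + 1),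
        c i * nrm (((Low (fun _ => (1 : ℤ)) 1) ^ i) X) := by
      have hsub : ({0, 1} : Finset ℕ) ⊆ Finset.range (j + 1) := by
        intro i hi
        simp only [Finset.mem_insert, Finset.mem_singleton] at hi
        rw [Finset.mem_range]; omega
      have := Finset.sum_le_sum_of_subset_of_nonneg hsub (f := fun i =>
        c i * nrm (((Low (fun _ => (1 : ℤ)) 1) ^ i) X))
        (fun i hi _ => mul_nonneg (hcpos i hi).le (nrm_nonneg _))
      rw [Finset.sum_pair (by norm_num)] at this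
      simpa using this
    refine lt_of_lt_of_le ?_ hX0
    have hc0 : ((j.factorial * 2 ^ j : ℕ) : ℤ) = c 0 := by simp [hc]
    rw [hc0]
    have hc0' := hcpos 0 (Finset.mem_range.2 (by omega))
    have hc1' := hcpos 1 (Finset.mem_range.2 (by omega))
    obtain ⟨hle, hlt⟩ := hLT t n β h1 hs (by omega)
    by_cases hm : t = true ∧ 2 ≤ β.count 1 ∧ 2 ∈ β
    · obtain ⟨rfl, hm1, hm2⟩ := hm
      have h3 := hlt (mixed_of β h1 hs hm1 hm2)
      have h4 := nrm_nonneg (Low (fun _ => (1 : ℤ)) 1 X)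
      have := mul_lt_mul_of_pos_left h3 hc0'
      nlinarith [mul_nonneg hc1'.le h4]
    · have h3 := hCO t n β h1 hs (by omega) hβ hev hex hm
      have h4 := nrm_pos h3
      have h5 := mul_le_mul_of_nonneg_left hle hc0'.le
      have h6 := mul_pos hc1' h4
      linarith

end neg

end Pool.Agent.helper27.PC
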