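import Pool.Agent.helper27.PC2.Fin4

/-!
# PC project, second half: the three theorems, with the modules as hypotheses
-/

namespace Pool.Agent.helper27.PC

open Module Polynomial

theorem posWord_ones (k j : ℕ) : posWord k (List.replicate j 1) = [] := by
  induction j generalizing k with
  | zero => rfl
  | succ j ih => simp [List.replicate_succ, posWord, ih]

theorem std2_nil (n : ℕ) (β : List ℕ) : std2 n β [] = std n β := by
  unfold std2 std word2
  simp [posWord]

theorem eq_replicate_one (α : List ℕ) (h1 : ∀ a ∈ α, 1 ≤ a) (h2 : ¬ ∃ a ∈ α, 2 ≤ a) :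
    α = List.replicate α.length 1 := by
  rw [List.eq_replicate_iff]
  refine ⟨rfl, fun a ha => ?_⟩
  have := h1 a ha
  by_contra h
  exact h2 ⟨a, ha, by omega⟩

theorem fockT_true (m : ℕ) : ∀ (l : List ℕ) (k : ℕ) (u : St →₀ ℤ[X]),
    fockT true m k l u = fock m k l u := by
  intro l
  induction l with
  | nil => intro k u; rfl
  | cons a l ih =>
    intro k u
    show fockT true m (k + a) l _ = fock m (k + a) l _
    rw [ih]
    congr 1

theorem PU_true (n : ℕ) (l : List ℕ) : PU true n l 0 = P n l := by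
  unfold PU P vecT vec nrm
  rw [pow_zero, Module.End.one_apply, fockT_true]

/-- `w` has the eigenvalue `1` in the reflection representation (odd functions on the signed indices) -/
def NonElliptic {n : ℕ} (w : W n) : Prop :=
  ∃ f : Fin n × Bool → ℝ, f ≠ 0 ∧ (∀ x, f (x.1, !x.2) = - f x) ∧
    ∀ x, f ((w : Equiv.Perm (Fin n × Bool)) x) = f x

section main

variable (hLEN2B : LEN2B_stmt) (hSIG : SIG_stmt) (hNFB2 : NFB2_stmt) (hNFD2 : NFD2_stmt)
  (hDZ : DZ_stmt) (hNU : NU_stmt) (hAA : AA_stmt) (hAAD : AAD_stmt) (hCLS : CLS_stmt)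
  (hELL : ELL_stmt) (hLG : LG_stmt) (hDL : DL_stmt) (hYD : YD_stmt) (hLT : LT_stmt) (hCO : CO_stmt)
  (hEV : EV_stmt) (hONE : ONE_stmt) (hSD : SD_stmt) (hSDD : SDD_stmt)

include hLEN2B hSIG hNFB2 hNFD2 hDZ hNU hAA hAAD hCLS hELL hLG hDL hYD hLT hCO hEV hONE in
theorem S1_of (t : Bool) (n : ℕ) (hn : if t then 1 ≤ n else 3 ≤ n) (H : Type) [Ring H] [Algebra A H]
    (T : Basis (Wty t n) A H) (hT : GHecke (genTy t n) T) (w : Wty t n) (hw1 : w ≠ 1)
    (hne : NonElliptic (w : W n)) : NotPosClass T w := by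
  obtain ⟨β, α, hty, hc⟩ := hCLS n (w : W n)
  have hn2 : if t then 1 ≤ n else 2 ≤ n := by
    cases t
    · have h3 : 3 ≤ n := hn
      show 2 ≤ n
      omega
    · exact hn
  obtain ⟨hev, w', hw', hmin, hx⟩ := key hLEN2B hSIG t n hn2 H T hT w β α hty hc
  refine ⟨w', hw', hmin, fun hnat => ?_⟩
  by_cases hα : ∃ a ∈ α, 2 ≤ a
  · obtain ⟨c, P, hc0, hcP, hneg⟩ := val2 hNFB2 hNFD2 hDZ hAA hAAD t n hn β α hty hev hα _ hx
    have := nonneg_of_natPoly hnat hcP 1
    omega
  · have hα1 := eq_replicate_one α hty.2.2.1 hα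
    set j := α.length with hj
    rw [hα1] at hty hc hx
    have hj1 : 1 ≤ j := by
      by_contra h
      have h0 : j = 0 := by omega
      rw [h0, List.replicate_zero] at hty hc
      obtain ⟨f, hf0, hf1, hf2⟩ := hne
      exact hf0 (hELL n β (w : W n) hty hc f hf1 hf2)
    have hβ : β ≠ [] := by
      rintro rfl
      apply hw1
      have h1 : std2 n [] (List.replicate j 1) = 1 := by
        unfold std2 word2
        rw [posWord_ones]
        rfl
      rw [h1, isConj_comm, isConj_one_right] at hc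
      exact Subtype.ext hc
    have hsum : n = β.sum + j := by
      have := hty.2.2.2
      simp at this
      omega
    obtain ⟨k, hk⟩ := neg1 hLG hDL hYD hLT hCO hEV hONE t β j hty.1 hty.2.1 hβ hev hj1
    obtain ⟨c, hc0, hcP⟩ := val1 hNFB2 hNFD2 hDZ hNU t n hn2 β j hty hev hβ _ hx
    have := nonneg_of_natPoly hnat hcP k
    rw [hsum] at this
    omega

include hLEN2B hSIG hNFB2 hNFD2 hDZ hNU in
/-- the polynomial of the class of negative cycle type `l` -/
theorem val0 (t : Bool) (n : ℕ) (hn : if t then 1 ≤ n else 2 ≤ n) (H : Type) [Ring H] [Algebra A H]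
    (T : Basis (Wty t n) A H) (hT : GHecke (genTy t n) T) (l : List ℕ) (hl : Part n l)
    (w₀ w : Wty t n) (hw : NegBlocks (w : W n) 0 l) (hw₀ : IsConj w₀ w) :
    (t = true ∨ Even l.length) ∧ ∃ w' : Wty t n, IsConj w₀ w' ∧ GMin (genTy t n) w' ∧
      ∃ c : ℕ, 0 < c ∧ (c : A) * GN (genTy t n) T w' = aeval (v ^ 2) (PU t n l 0) := by
  have hty : Typ n l (List.replicate 0 1) := ⟨hl.1, hl.2.1, by simp, by simpa using hl.2.2⟩
  have e1 : (w : W n) = std n l := eq_std (w : W n) l hl hw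
  have hc : IsConj (w₀ : W n) (std2 n l (List.replicate 0 1)) := by
    rw [List.replicate_zero, std2_nil, ← e1]
    obtain ⟨c, hc⟩ := isConj_iff.1 hw₀
    exact isConj_iff.2 ⟨c, by rw [← hc]; rfl⟩
  have hl0 : l ≠ [] := by
    rintro rfl
    have h0 := hl.2.2
    simp at h0
    cases t
    · have h3 : 2 ≤ n := hn
      omega
    · have h3 : 1 ≤ n := hn
      omega
  obtain ⟨hev, w', hw', hmin, hx⟩ := key hLEN2B hSIG t n hn H T hT w₀ l _ hty hc
  exact ⟨hev, w', hw', hmin, val1 hNFB2 hNFD2 hDZ hNU t n hn l 0 hty hev hl0 _ hx⟩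

include hLEN2B hSIG hNFB2 hNFD2 hDZ hNU hLT hEV in
theorem S3_of (t : Bool) (n : ℕ) (hn : if t then 1 ≤ n else 2 ≤ n) (H : Type) [Ring H] [Algebra A H]
    (T : Basis (Wty t n) A H) (hT : GHecke (genTy t n) T) (l : List ℕ) (hl : Part n l)
    (hm : Mixed t l) (w₀ w : Wty t n) (hw : NegBlocks (w : W n) 0 l) (hw₀ : IsConj w₀ w) :
    NotPosClass T w₀ := by
  obtain ⟨hev, w', hw', hmin, c, hc, hcP⟩ :=
    val0 hLEN2B hSIG hNFB2 hNFD2 hDZ hNU t n hn H T hT l hl w₀ w hw hw₀
  refine ⟨w', hw', hmin, fun hnat => ?_⟩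
  have hsum : l.sum ≤ n := hl.2.2.le
  have h1 := (hLT t n l hl.1 hl.2.1 hsum).2 hm
  obtain ⟨e1, e2⟩ := hEV t n l 0 hl.1 hsum
  rw [pow_zero, Module.End.one_apply] at e1 e2
  rw [← e1, ← e2] at h1
  obtain ⟨k, hk⟩ := exists_neg_of_lt _ h1
  have := nonneg_of_natPoly hnat hcP k
  omega

include hLEN2B hSIG hNFB2 hNFD2 hDZ hNU hSD hSDD in
theorem S2_of (t : Bool) (n : ℕ) (hn : if t then 1 ≤ n else 2 ≤ n) (H : Type) [Ring H] [Algebra A H]
    (T : Basis (Wty t n) A H) (hT : GHecke (genTy t n) T) (l : List ℕ) (hl : Part n l)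
    (hsd : SuperDecreasing l) (w₀ w : Wty t n) (hw : NegBlocks (w : W n) 0 l) (hw₀ : IsConj w₀ w) :
    PosClass T w₀ := by
  obtain ⟨hev, w', hw', hmin, c, hc, hcP⟩ :=
    val0 hLEN2B hSIG hNFB2 hNFD2 hDZ hNU t n hn H T hT l hl w₀ w hw hw₀
  refine ⟨w', hw', hmin, natPoly_of_nonneg hc ?_ hcP⟩
  cases t
  · intro k
    have hev' : Even l.length := hev.resolve_left (by simp)
    have h := hSDD n l hl hsd hev' k
    unfold PU
    rw [pow_zero, Module.End.one_apply]
    exact h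
  · intro k
    rw [PU_true]
    exact hSD n l hl hsd k

end main

end Pool.Agent.helper27.PC
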