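import Pool.Agent.helper27.PC2.REPQ
import Pool.Agent.helper27.PC.RR

/-!
# PC project, second half: the ribbon rule with the parameter `Q`
-/

namespace Pool.Agent.helper27.PC

namespace Q

open Module Finset

section trace

variable {K : Type*} [Field K]

theorem opW_range (Q v : K) (m a : ℕ) :
    opWQ Q v m (List.range (a + 1)) = Xop (xQ Q v m) 0 * asc (Top v (xQ Q v m)) 0 a := by
  unfold opWQ asc
  rw [List.range_succ_eq_map, List.map_cons, List.prod_cons, List.map_map, ← List.range_eq_range']
  rfl

theorem opW_range_rev (Q v : K) (m a : ℕ) :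
    opWQ Q v m (List.range (a + 1)).reverse =
      ((List.range' 0 a).reverse.map (Top v (xQ Q v m))).prod * Xop (xQ Q v m) 0 := by
  unfold opWQ
  rw [List.range_succ_eq_map, List.reverse_cons, List.map_append, List.prod_append, ← List.map_reverse,
    List.map_map, ← List.range_eq_range']
  simp only [List.map_cons, List.map_nil, List.prod_cons, List.prod_nil, mul_one]
  rfl

/-- the trace of the first block on the words from `S` to `S'` -/
noncomputable def bt (Q v : K) (m a : ℕ) (S S' : St) : K := trP a S S' (opWQ Q v m (List.range a))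

/-- the same with the reversed word -/
noncomputable def bt' (Q v : K) (m a : ℕ) (S S' : St) : K := trP a S S' (opWQ Q v m (List.range a).reverse)

section rec

variable {Q v : K} (hv : GenQ Q v) (m a : ℕ) (S S' : St)

include hv

/-- relations of the matrices on the words from `S` to `S'` -/
theorem RR_rel (n : ℕ) :
    (∀ i, i + 2 < n → matF (paths n S S') (Top v (xQ Q v m) i) *
        matF (paths n S S') (Top v (xQ Q v m) (i + 1)) * matF (paths n S S') (Top v (xQ Q v m) i) =
      matF (paths n S S') (Top v (xQ Q v m) (i + 1)) * matF (paths n S S') (Top v (xQ Q v m) i) *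
        matF (paths n S S') (Top v (xQ Q v m) (i + 1))) ∧
    (∀ i j, i + 1 < j → j + 1 < n → matF (paths n S S') (Top v (xQ Q v m) i) *
        matF (paths n S S') (Top v (xQ Q v m) j) =
      matF (paths n S S') (Top v (xQ Q v m) j) * matF (paths n S S') (Top v (xQ Q v m) i)) ∧
    (∀ j, 1 ≤ j → j + 1 < n → matF (paths n S S') (Xop (xQ Q v m) 0) *
        matF (paths n S S') (Top v (xQ Q v m) j) =
      matF (paths n S S') (Top v (xQ Q v m) j) * matF (paths n S S') (Xop (xQ Q v m) 0)) ∧
    (1 < n → matF (paths n S S') (Top v (xQ Q v m) 0) * matF (paths n S S') (Xop (xQ Q v m) 0) *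
        matF (paths n S S') (Top v (xQ Q v m) 0) = matF (paths n S S') (Xop (xQ Q v m) 1)) ∧
    (∀ i, i + 1 < n → matF (paths n S S') (Top v (xQ Q v m) i) *
        matF (paths n S S') (Top v (xQ Q v m) i) =
      (v - v⁻¹) • matF (paths n S S') (Top v (xQ Q v m) i) + 1) := by
  have hx := xQ_ok hv m
  have hT : ∀ i, Stab (paths n S S') (Top v (xQ Q v m) i) := Stab_Top hx n S S'
  have hX : ∀ i, Stab (paths n S S') (Xop (K := K) (xQ Q v m) i) := fun i => Stab_Xop _ _
  have len : ∀ w ∈ paths n S S', w.length = n := fun w hw => length_of_mem_paths hw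
  refine ⟨?_, ?_, ?_, ?_, ?_⟩
  · intro i hi
    rw [← matF_mul (hT _), ← matF_mul (hT _), ← matF_mul (hT _), ← matF_mul (hT _)]
    apply matF_congr
    intro w hw
    have hl := len w hw
    obtain ⟨p, a, b, c, z, rfl, hp⟩ := exists_split₃ (i := i) (w := w) (by omega)
    obtain ⟨h1, h2, h3⟩ := mem_split₃ hw
    exact braid_word hx hp h1 h2 h3
  · intro i j hij hj
    rw [← matF_mul (hT _), ← matF_mul (hT _)]
    apply matF_congr
    intro w hw
    have hl := len w hw
    exact comm_word (by omega) (by omega)
  · intro j hj1 hj2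
    rw [← matF_mul (hT _), ← matF_mul (hX _)]
    apply matF_congr
    intro w hw
    have hl := len w hw
    exact Xop_comm_word (by omega) (by omega)
  · intro h1n
    rw [← matF_mul (hX _), ← matF_mul (hT _)]
    apply matF_congr
    intro w hw
    have hl := len w hw
    obtain ⟨p, a, b, z, rfl, hp⟩ := exists_split₂ (i := 0) (w := w) (by omega)
    exact TXT_word hx hp (mem_split₂ hw).1
  · intro i hi
    rw [← matF_mul (hT _), ← matF_one, ← matF_smul, ← matF_add]
    apply matF_congr
    intro w hw
    have hl := len w hw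
    obtain ⟨p, a, b, z, rfl, hp⟩ := exists_split₂ (i := i) (w := w) (by omega)
    exact quad_word hx hp (mem_split₂ hw).1

theorem bt_rec (ha : 1 ≤ a) :
    (v - v⁻¹) * bt Q v m (a + 1) S S' = (∑ l ∈ addable 1 S, bt Q v m a (move 1 S l) S') -
      ∑ M ∈ ends a S, bt Q v m a S M * ((paths 1 M S').card : K) := by
  obtain ⟨b, rfl⟩ : ∃ b, a = b + 1 := ⟨a - 1, by omega⟩
  have hx := xQ_ok hv m
  set F := paths (b + 1 + 1) S S' with hF
  set T := Top v (xQ Q v m) with hTdef
  set X := Xop (K := K) (xQ Q v m) with hXdef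
  have hT : ∀ i, Stab F (T i) := Stab_Top hx _ S S'
  have hX : ∀ i, Stab F (X i) := fun i => Stab_Xop _ _
  obtain ⟨r1, r2, r3, r4, r5⟩ := RR_rel hv m S S' (b + 1 + 1)
  have hasc : ∀ i n, Stab F (asc T i n) ∧ matF F (asc T i n) = asc (fun i => matF F (T i)) i n :=
    fun i n => matF_prod T _ fun j _ => hT j
  -- the shifted block
  have e1 : ∑ l ∈ addable 1 S, bt Q v m (b + 1) (move 1 S l) S' =
      trF F (X 1 * asc T 1 b) := by
    have hs : Sh (opWQ Q v m (List.range (b + 1))) (X 1 * asc T 1 b) := by
      rw [opW_range]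
      refine (Sh_Xop _ 0).mul ?_
      have := Sh_prod (fun i => T i) (fun i => T (i + 1)) (List.range' 0 b) fun i _ => Sh_Top v _ i
      have e : asc T 1 b = ((List.range' 0 b).map fun i => T (i + 1)).prod := by
        unfold asc
        rw [range'_one, List.map_map]
        rfl
      rw [e]; exact this
    rw [← trP_eq, trP_shift hs]
    rfl
  have e2 : ∑ M ∈ ends (b + 1) S, bt Q v m (b + 1) S M * ((paths 1 M S').card : K) =
      trF F (X 0 * asc T 0 b) := by
    have hp : Pre (b + 1) (opWQ Q v m (List.range (b + 1))) := by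
      rw [opW_range]
      refine (Pre_Xop _ (by omega)).mul (Pre_prod _ _ fun i hi => Pre_Top v _ ?_)
      rw [List.mem_range'_1] at hi
      omega
    have := trP_prefix hp 1 S S'
    rw [opW_range] at this
    rw [← trP_eq, this]
    unfold bt
    rw [opW_range]
  have e3 : bt Q v m (b + 1 + 1) S S' = trF F (X 0 * asc T 0 (b + 1)) := by
    unfold bt; rw [opW_range, trP_eq]
  have e4 := tr_block (R := Matrix F F K) Matrix.trace (fun a b => Matrix.trace_mul_comm a b)
    (fun i => matF F (T i)) (matF F (X 0)) (b + 1) (fun i hi => r1 i (by omega))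
    (fun i j hij hj => r2 i j hij (by omega)) (fun j h1 h2 => r3 j h1 (by omega)) (by omega)
  have e5 : trF F (X 1 * asc T 1 b) = Matrix.trace (matF F (T 0) * matF F (X 0) * matF F (T 0) *
      asc (fun i => matF F (T i)) 1 (b + 1 - 1)) := by
    rw [trF_eq, matF_mul (hasc 1 b).1, (hasc 1 b).2, r4 (by omega), Nat.add_sub_cancel]
  have e6 : matF F (X 0) * asc (fun i => matF F (T i)) 0 (b + 1) * matF F (T (b + 1 - 1)) =
      (v - v⁻¹) • (matF F (X 0) * asc (fun i => matF F (T i)) 0 (b + 1)) +
        matF F (X 0) * asc (fun i => matF F (T i)) 0 b := by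
    rw [asc_succ', Nat.add_sub_cancel, zero_add, mul_assoc, mul_assoc, r5 b (by omega), mul_add,
      mul_add, mul_one, mul_smul_comm, mul_smul_comm]
  rw [e1, e2, e3, e5, e4, e6, Matrix.trace_add, Matrix.trace_smul, smul_eq_mul, trF_eq, trF_eq,
    matF_mul (hasc 0 _).1, (hasc 0 _).2, matF_mul (hasc 0 b).1, (hasc 0 b).2]
  ring

theorem bt'_rec (ha : 1 ≤ a) :
    (v - v⁻¹) * bt' Q v m (a + 1) S S' = (∑ l ∈ addable 1 S, bt' Q v m a (move 1 S l) S') -
      ∑ M ∈ ends a S, bt' Q v m a S M * ((paths 1 M S').card : K) := by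
  obtain ⟨b, rfl⟩ : ∃ b, a = b + 1 := ⟨a - 1, by omega⟩
  have hx := xQ_ok hv m
  set F := paths (b + 1 + 1) S S' with hF
  set T := Top v (xQ Q v m) with hTdef
  set X := Xop (K := K) (xQ Q v m) with hXdef
  have hT : ∀ i, Stab F (T i) := Stab_Top hx _ S S'
  have hX : ∀ i, Stab F (X i) := fun i => Stab_Xop _ _
  obtain ⟨r1, r2, r3, r4, r5⟩ := RR_rel hv m S S' (b + 1 + 1)
  have hdesc : ∀ i n, Stab F (((List.range' i n).reverse.map T).prod) ∧
      matF F (((List.range' i n).reverse.map T).prod) =
        ((List.range' i n).reverse.map fun i => matF F (T i)).prod :=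
    fun i n => matF_prod T _ fun j _ => hT j
  have e1 : ∑ l ∈ addable 1 S, bt' Q v m (b + 1) (move 1 S l) S' =
      trF F (((List.range' 1 b).reverse.map T).prod * X 1) := by
    have hs : Sh (opWQ Q v m (List.range (b + 1)).reverse)
        (((List.range' 1 b).reverse.map T).prod * X 1) := by
      rw [opW_range_rev]
      refine Sh.mul ?_ (Sh_Xop _ 0)
      have := Sh_prod (fun i => T i) (fun i => T (i + 1)) (List.range' 0 b).reverse
        fun i _ => Sh_Top v _ i
      have e : ((List.range' 1 b).reverse.map T).prod =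
          ((List.range' 0 b).reverse.map fun i => T (i + 1)).prod := by
        rw [range'_one, ← List.map_reverse, List.map_map]
        rfl
      rw [e]; exact this
    rw [← trP_eq, trP_shift hs]
    rfl
  have e2 : ∑ M ∈ ends (b + 1) S, bt' Q v m (b + 1) S M * ((paths 1 M S').card : K) =
      trF F (((List.range' 0 b).reverse.map T).prod * X 0) := by
    have hp : Pre (b + 1) (opWQ Q v m (List.range (b + 1)).reverse) := by
      rw [opW_range_rev]
      refine Pre.mul (Pre_prod _ _ fun i hi => Pre_Top v _ ?_) (Pre_Xop _ (by omega))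
      rw [List.mem_reverse, List.mem_range'_1] at hi
      omega
    have := trP_prefix hp 1 S S'
    rw [opW_range_rev] at this
    rw [← trP_eq, this]
    unfold bt'
    rw [opW_range_rev]
  have e3 : bt' Q v m (b + 1 + 1) S S' =
      trF F (((List.range' 0 (b + 1)).reverse.map T).prod * X 0) := by
    unfold bt'; rw [opW_range_rev, trP_eq]
  have e4 := tr_block_rev (R := Matrix F F K) Matrix.trace (fun a b => Matrix.trace_mul_comm a b)
    (fun i => matF F (T i)) (matF F (X 0)) (b + 1) (fun i hi => r1 i (by omega))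
    (fun i j hij hj => r2 i j hij (by omega)) (fun j h1 h2 => r3 j h1 (by omega)) (by omega)
  rw [Nat.add_sub_cancel] at e4
  have e5 : trF F (((List.range' 1 b).reverse.map T).prod * X 1) =
      Matrix.trace (((List.range' 1 b).reverse.map fun i => matF F (T i)).prod *
        (matF F (T 0) * matF F (X 0) * matF F (T 0))) := by
    rw [trF_eq, matF_mul (hX 1), (hdesc 1 b).2, r4 (by omega)]
  have hrev : ((List.range' 0 (b + 1)).reverse.map fun i => matF F (T i)).prod =
      matF F (T b) * ((List.range' 0 b).reverse.map fun i => matF F (T i)).prod := by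
    rw [List.range'_concat, List.reverse_append, List.map_append, List.prod_append]
    simp
  have e6 : matF F (T b) * (((List.range' 0 (b + 1)).reverse.map fun i => matF F (T i)).prod *
        matF F (X 0)) =
      (v - v⁻¹) • (((List.range' 0 (b + 1)).reverse.map fun i => matF F (T i)).prod *
        matF F (X 0)) + ((List.range' 0 b).reverse.map fun i => matF F (T i)).prod * matF F (X 0) := by
    rw [hrev, ← mul_assoc, ← mul_assoc, r5 b (by omega), add_mul, add_mul, one_mul, smul_mul_assoc,
      smul_mul_assoc]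
  rw [e1, e2, e3, e5, e4, e6, Matrix.trace_add, Matrix.trace_smul, smul_eq_mul, trF_eq, trF_eq,
    matF_mul (hX 0), (hdesc 0 _).2, matF_mul (hX 0), (hdesc 0 b).2]
  ring

end rec

/-! ### comparison with the ribbon operators -/

theorem cnt_one (S : St) (l : Lab) : cnt S l 1 = 0 := by
  unfold cnt
  rw [card_eq_zero, filter_eq_empty_iff]
  intro y _ h
  omega

theorem paths_one_card (M S' : St) :
    ((paths 1 M S').card : K) = Rib (fun _ => 1) 1 (Finsupp.single M (1 : K)) S' := by
  rw [Rib_single, Finsupp.finsetSum_apply]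
  have h1 : paths 1 M S' = ((addable 1 M).filter fun l => move 1 M l = S').image fun l => [l] := by
    ext w
    rw [show (1 : ℕ) = 0 + 1 by rfl, mem_paths_succ]
    simp only [mem_paths_zero, mem_image, mem_filter]
    constructor
    · rintro ⟨l, z, rfl, hl, rfl, h⟩; exact ⟨l, ⟨hl, h⟩, rfl⟩
    · rintro ⟨l, ⟨hl, h⟩, rfl⟩; exact ⟨l, [], rfl, hl, rfl, h⟩
  rw [h1, card_image_of_injective _ (fun a b h => (List.cons.inj h).1), card_filter]
  push_cast
  apply sum_congr rfl
  intro l _
  rw [cnt_one, Finsupp.single_apply]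
  simp

/-- recursion of the ribbon side -/
theorem rib_rec {Q v : K} (hv : GenQ Q v) (m a : ℕ) (ha : 1 ≤ a) (S S' : St) :
    (v - v⁻¹) * (v ^ a * Rib (xQ Q v m) (a + 1) (Finsupp.single S 1) S') =
      (∑ l ∈ addable 1 S, v ^ (a - 1) * Rib (xQ Q v m) a (Finsupp.single (move 1 S l) 1) S') -
      (Rib (xQ Q v m) a (Finsupp.single S 1)).sum fun M c =>
        v ^ (a - 1) * c * ((paths 1 M S').card : K) := by
  have hx := xQ_ok hv m
  have h0 := hx.v0
  have h := CAR_gen (xQ Q v m) (fun _ => (1 : K)) a 1 ha le_rfl
  have h2 := congrArg (fun φ : (St →₀ K) →ₗ[K] (St →₀ K) => φ (Finsupp.single S 1) S') h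
  simp only [LinearMap.sub_apply, LinearMap.comp_apply, Finsupp.sub_apply, mul_one, one_mul] at h2
  have e1 : Rib (xQ Q v m) a (Rib (fun _ => 1) 1 (Finsupp.single S 1)) S' =
      ∑ l ∈ addable 1 S, Rib (xQ Q v m) a (Finsupp.single (move 1 S l) 1) S' := by
    rw [Rib_single (fun _ => (1 : K)), map_sum, Finsupp.finsetSum_apply]
    apply sum_congr rfl
    intro l _
    rw [cnt_one]; simp
  have e2 : Rib (fun _ => (1 : K)) 1 (Rib (xQ Q v m) a (Finsupp.single S 1)) S' =
      (Rib (xQ Q v m) a (Finsupp.single S 1)).sum fun M c => c * ((paths 1 M S').card : K) := by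
    conv_lhs => rw [← Finsupp.sum_single (Rib (xQ Q v m) a (Finsupp.single S 1))]
    rw [map_finsuppSum, Finsupp.sum_apply]
    apply Finsupp.sum_congr
    intro M _
    rw [paths_one_card]
    rw [show (Finsupp.single M ((Rib (xQ Q v m) a (Finsupp.single S 1)) M) : St →₀ K) =
      ((Rib (xQ Q v m) a (Finsupp.single S 1)) M) • Finsupp.single M 1 by
        rw [Finsupp.smul_single, smul_eq_mul, mul_one], map_smul, Finsupp.smul_apply, smul_eq_mul]
  have e3 : (fun l => xQ Q v m (up 1 l) - xQ Q v m l) = fun l => (v ^ 2 - 1) * xQ Q v m l := by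
    funext l; rw [hx.up]; ring
  have e4 : ∀ (c : K) (w : Lab → K) (b : ℕ), Rib (fun l => c * w l) b (Finsupp.single S 1) S' =
      c * Rib w b (Finsupp.single S 1) S' := by
    intro c w b
    rw [Rib_single, Rib_single, Finsupp.finsetSum_apply, Finsupp.finsetSum_apply, mul_sum]
    apply sum_congr rfl
    intro l _
    rw [Finsupp.single_apply, Finsupp.single_apply]
    split_ifs <;> ring
  rw [e1, e2, e3, e4] at h2
  have e5 : ∀ c : K, (Rib (xQ Q v m) a (Finsupp.single S 1)).sum (fun M d =>
      c * d * ((paths 1 M S').card : K)) = c * (Rib (xQ Q v m) a (Finsupp.single S 1)).sum (fun M d =>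
      d * ((paths 1 M S').card : K)) := by
    intro c
    rw [Finsupp.mul_sum]
    simp only [mul_assoc]
  rw [e5, ← mul_sum, ← mul_sub, h2]
  obtain ⟨b, rfl⟩ : ∃ b, a = b + 1 := ⟨a - 1, by omega⟩
  rw [Nat.add_sub_cancel, pow_succ]
  field_simp

theorem RRQ : RRQ_stmt := by
  intro K _ Q v hv m a S S' ha
  have hx := xQ_ok hv m
  have h0 := hx.v0
  have hc : v - v⁻¹ ≠ 0 := by
    intro h
    apply hx.v2
    have : v * (v - v⁻¹) = 0 := by rw [h, mul_zero]
    rw [mul_sub, mul_inv_cancel₀ h0] at this
    linear_combination this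
  have base : ∀ S S', bt Q v m 1 S S' = Rib (xQ Q v m) 1 (Finsupp.single S 1) S' ∧
      bt' Q v m 1 S S' = Rib (xQ Q v m) 1 (Finsupp.single S 1) S' := by
    intro S S'
    have key : trP 1 S S' (Xop (xQ Q v m) 0) = Rib (xQ Q v m) 1 (Finsupp.single S 1) S' := by
      rw [Rib_single, Finsupp.finsetSum_apply]
      unfold trP
      rw [show (1 : ℕ) = 0 + 1 by rfl, paths, sum_biUnion]
      · apply sum_congr rfl
        intro l _
        rw [sum_image (fun z _ z' _ h => (List.cons.inj h).2), paths, cnt_one, Finsupp.single_apply]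
        split_ifs with h
        · rw [sum_singleton, Xop_single]; simp
        · simp
      · intro l _ l' _ hne
        rw [Function.onFun, Finset.disjoint_left]
        intro w hw hw'
        rw [mem_image] at hw hw'
        obtain ⟨z, _, rfl⟩ := hw
        obtain ⟨z', _, h'⟩ := hw'
        exact hne (List.cons.inj h').1.symm
    have e1 : opWQ Q v m (List.range 1) = Xop (xQ Q v m) 0 := by
      unfold opWQ; simp [List.range_succ]; rfl
    have e2 : opWQ Q v m (List.range 1).reverse = Xop (xQ Q v m) 0 := by
      unfold opWQ; simp [List.range_succ]; rfl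
    unfold bt bt'
    rw [e1, e2]
    exact ⟨key, key⟩
  have ind : ∀ b, 1 ≤ b → ∀ S S', bt Q v m b S S' = v ^ (b - 1) * Rib (xQ Q v m) b (Finsupp.single S 1) S' ∧
      bt' Q v m b S S' = v ^ (b - 1) * Rib (xQ Q v m) b (Finsupp.single S 1) S' := by
    intro b hb
    induction b, hb using Nat.le_induction with
    | base =>
      intro S S'
      rw [Nat.sub_self, pow_zero, one_mul]; exact base S S'
    | succ b hb ih =>
      intro S S'
      rw [Nat.add_sub_cancel]
      have hsum : ∀ f : St → K, (∀ M, f M = v ^ (b - 1) * Rib (xQ Q v m) b (Finsupp.single S 1) M) →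
          (∀ M, M ∉ ends b S → f M = 0) →
          ∑ M ∈ ends b S, f M * ((paths 1 M S').card : K) =
          (Rib (xQ Q v m) b (Finsupp.single S 1)).sum fun M c =>
            v ^ (b - 1) * c * ((paths 1 M S').card : K) := by
        intro f h1 h2
        unfold Finsupp.sum
        simp only [← h1]
        symm
        apply sum_subset
        · intro M hM
          by_contra h3
          have h4 := h2 M h3
          rw [h1] at h4
          rcases mul_eq_zero.1 h4 with h5 | h5
          · exact pow_ne_zero _ h0 h5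
          · exact (Finsupp.mem_support_iff.1 hM) h5
        · intro M _ hM
          rw [h1, Finsupp.notMem_support_iff.1 hM]; simp
      have hz : ∀ (φ : Module.End K (List Lab →₀ K)) M, M ∉ ends b S → trP b S M φ = 0 := by
        intro φ M hM
        unfold trP
        apply sum_eq_zero
        intro w hw
        exact absurd (end_mem_ends hw) hM
      have hr := rib_rec hv m b hb S S'
      constructor
      · apply mul_left_cancel₀ hc
        rw [bt_rec hv m b S S' hb, hr, hsum (fun M => bt Q v m b S M) (fun M => (ih S M).1)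
          fun M hM => hz _ M hM]
        congr 1
        exact sum_congr rfl fun l _ => (ih _ S').1
      · apply mul_left_cancel₀ hc
        rw [bt'_rec hv m b S S' hb, hr, hsum (fun M => bt' Q v m b S M) (fun M => (ih S M).2)
          fun M hM => hz _ M hM]
        congr 1
        exact sum_congr rfl fun l _ => (ih _ S').2
  exact ind a ha S S'

end trace

end Q

theorem RRQ : RRQ_stmt := Q.RRQ

end Pool.Agent.helper27.PC
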