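import Pool.Agent.helper27.PC2.Fin5
import Pool.Agent.helper27.PC2.RRQ
import Pool.Agent.helper35.PC2.DW
import Pool.Agent.helper99.PC2.GEND
import Pool.Agent.helper13.PC2.HRELD
import Pool.Agent.helper13.PC2.TWG
import Pool.Agent.helper30.PC2.DIMQ
import Pool.Agent.helper16.PC2.CH2
import Pool.Agent.helper74.PC2.LEN2D
import Pool.Agent.helper29.PC2.SIG
import Pool.Agent.helper18.PC2.HOMQ
import Pool.Agent.helper80.PC2.NU
import Pool.Agent.helper80.PC2.LALG
import Pool.Agent.helper79.PC2.LB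
import Pool.Agent.helper15.PC2.DL
import Pool.Agent.helper15.PC2.EV
import Pool.Agent.helper91.PC2.YD
import Pool.Agent.helper14.PC2.LT
import Pool.Agent.helper18.PC2.ONE
import Pool.Agent.helper1.PC2.DZ
import Pool.Agent.helper6.PC2.NFB2
import Pool.Agent.helper6.PC2.TRD
import Pool.Agent.helper25.PC2.NFD2
import Pool.Agent.helper25.PC2.SDD
import Pool.Agent.helper25.PC2.SP
import Pool.Agent.helper94.PC2.VQ
import Pool.Agent.helper71.PC2.HK
import Pool.Agent.helper43.PC2.HKP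
import Pool.Agent.helper17.PC2.AA
import Pool.Agent.helper67.PC2.AAD
import Pool.Agent.helper93.PC2.ELL
import Pool.Agent.helper26.PC2.CLS
import Pool.Agent.helper63.PC2.CARDD
import Pool.Agent.helper46.PC2.NZ
import Pool.Agent.helper94.PC2.CO

/-!
# PC project, second half: the modules put together
-/

namespace Pool.Agent.helper27.PC

open Module Polynomial

theorem GENDu : GEND_stmt := GEND DW

theorem LEN2Du : LEN2D_stmt := LEN2D GENDu DW

theorem SIGu : SIG_stmt := SIG LEN2Du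

theorem HOMQu : HOMQ_stmt := HOMQ DIMQ REPQ CNT

theorem TRDu : TRD_stmt := TRD TWG CARDD (HRELD TWG GENDu) HOMQu REPQ CNT GENDu

theorem NFB2u : NFB2_stmt := NFB2 TRu LEN2B TW

theorem NFD2u : NFD2_stmt := NFD2 TRDu LEN2Du TWG GENDu

theorem CH2u : CH2_stmt := CH2 CHQ

theorem NUu : NU_stmt := NU CH2u

theorem DLu : DL_stmt := DL LA LG LB

theorem HKu : HK_stmt := HK HOMQu

theorem HKPu : HKP_stmt := HKP HKu

theorem AAu : AA_stmt := AA CH2u HKPu VQ SP

theorem AADu : AAD_stmt := AAD HKu HKPu SP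

theorem EVu : EV_stmt := EV LG

/-- positivity of the super-decreasing types -/
theorem S2 (t : Bool) (n : ℕ) (hn : if t then 1 ≤ n else 2 ≤ n) (H : Type) [Ring H] [Algebra A H]
    (T : Basis (Wty t n) A H) (hT : GHecke (genTy t n) T) (l : List ℕ) (hl : Part n l)
    (hsd : SuperDecreasing l) (w₀ w : Wty t n) (hw : NegBlocks (w : W n) 0 l) (hw₀ : IsConj w₀ w) :
    PosClass T w₀ :=
  S2_of LEN2B SIGu NFB2u NFD2u DZ NUu SD SDD t n hn H T hT l hl hsd w₀ w hw hw₀

/-- non-elliptic classes -/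
theorem S1 (t : Bool) (n : ℕ) (hn : if t then 1 ≤ n else 3 ≤ n) (H : Type) [Ring H]
    [Algebra A H] (T : Basis (Wty t n) A H) (hT : GHecke (genTy t n) T) (w : Wty t n) (hw1 : w ≠ 1)
    (hne : NonElliptic (w : W n)) : NotPosClass T w :=
  S1_of LEN2B SIGu NFB2u NFD2u DZ NUu AAu AADu CLS ELL LG DLu (YD LG LB) (LT DLu LB LG (NZ LB LG COL))
    (CO COL LG LB) EVu (ONE DLu) t n hn H T hT w hw1 hne

end Pool.Agent.helper27.PC
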